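import Pool.Agent.Lib.MP_e46711_an.H21.Tools

/-!
# B7: local dead cores
-/

open Set Filter Topology MeasureTheory
open scoped ContDiff

namespace Pool.Agent.Lib.MP_e46711_an.H21

lemma gg_nonneg {p x : ℝ} (hp : 0 < p) (hx : 0 ≤ x) : gg p x = x - x ^ p := by
  rcases hx.eq_or_lt with rfl | hx
  · simp [gg, sp, Real.zero_rpow hp.ne']
  · simp [gg, sp, sign_pos hx, abs_of_pos hx]

/-- `g` decreases with slope `≤ -1` near `0` -/
lemma gg_sub_le {p η x y : ℝ} (hp : 0 < p) (hp1 : p < 1)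
    (hη2 : 2 ≤ p * η ^ (p - 1)) (hx : 0 ≤ x) (hxy : x < y) (hy : y ≤ η) :
    gg p y - gg p x ≤ -(y - x) := by
  have hy0 : 0 < y := hx.trans_lt hxy
  rw [gg_nonneg hp hx, gg_nonneg hp hy0.le]
  have h1 : (1 + (x / y - 1)) ^ p ≤ 1 + p * (x / y - 1) := by
    refine rpow_one_add_le_one_add_mul_self ?_ hp.le hp1.le
    have : 0 ≤ x / y := by positivity
    linarith
  have h2 : x ^ p ≤ y ^ p + p * y ^ (p - 1) * (x - y) := by
    have e1 : x ^ p = y ^ p * (1 + (x / y - 1)) ^ p := by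
      rw [show 1 + (x / y - 1) = x / y by ring, Real.div_rpow hx hy0.le]
      field_simp
    have e2 : p * y ^ (p - 1) * (x - y) = y ^ p * (p * (x / y - 1)) := by
      rw [Real.rpow_sub_one hy0.ne']
      field_simp
    rw [e1, e2]
    have := mul_le_mul_of_nonneg_left h1 (Real.rpow_nonneg hy0.le p)
    linarith
  have h3 : η ^ (p - 1) ≤ y ^ (p - 1) :=
    Real.rpow_le_rpow_of_nonpos hy0 hy (by linarith)
  have h4 : 2 * (y - x) ≤ p * y ^ (p - 1) * (y - x) := by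
    refine mul_le_mul_of_nonneg_right (hη2.trans ?_) (by linarith)
    exact mul_le_mul_of_nonneg_left h3 hp.le
  linarith

/-! ### the barrier -/

/-- the barrier `K (1 - cos (c (s - s0)))^n` -/
noncomputable def Ba (K c : ℝ) (n : ℕ) (s0 s : ℝ) : ℝ := K * (1 - Real.cos (c * (s - s0))) ^ n
noncomputable def Ba1 (K c : ℝ) (n : ℕ) (s0 s : ℝ) : ℝ :=
  K * (n * (1 - Real.cos (c * (s - s0))) ^ (n - 1) * (c * Real.sin (c * (s - s0))))
noncomputable def Ba2 (K c : ℝ) (n : ℕ) (s0 s : ℝ) : ℝ :=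
  K * n * c ^ 2 * (1 - Real.cos (c * (s - s0))) ^ (n - 1) *
    (2 * n - 1 - n * (1 - Real.cos (c * (s - s0))))

lemma hasDeriv_w (c s0 s : ℝ) :
    HasDerivAt (fun s => 1 - Real.cos (c * (s - s0))) (c * Real.sin (c * (s - s0))) s := by
  have h1 : HasDerivAt (fun s => c * (s - s0)) c s := by
    simpa using ((hasDerivAt_id s).sub_const s0).const_mul c
  have := (h1.cos).const_sub 1
  have e : -(-Real.sin (c * (s - s0)) * c) = c * Real.sin (c * (s - s0)) := by ring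
  rw [e] at this
  exact this

lemma hasDeriv_Ba (K c : ℝ) (n : ℕ) (s0 s : ℝ) : HasDerivAt (Ba K c n s0) (Ba1 K c n s0 s) s :=
  ((hasDeriv_w c s0 s).pow n).const_mul K

lemma hasDeriv_Ba1 (K c : ℝ) {n : ℕ} (hn : 2 ≤ n) (s0 s : ℝ) :
    HasDerivAt (Ba1 K c n s0) (Ba2 K c n s0 s) s := by
  obtain ⟨k, rfl⟩ : ∃ k, n = k + 2 := ⟨n - 2, by omega⟩
  have h1 : HasDerivAt (fun s => c * (s - s0)) c s := by
    simpa using ((hasDerivAt_id s).sub_const s0).const_mul c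
  have h2 : HasDerivAt (fun s => c * Real.sin (c * (s - s0)))
      (c * (Real.cos (c * (s - s0)) * c)) s := (h1.sin).const_mul c
  have h3 := (((hasDeriv_w c s0 s).pow (k + 1)).const_mul (((k + 2 : ℕ) : ℝ))).mul h2
  have h4 := h3.const_mul K
  have e : Ba1 K c (k + 2) s0 = fun s => K * (((k + 2 : ℕ) : ℝ) *
      (1 - Real.cos (c * (s - s0))) ^ (k + 1) * (c * Real.sin (c * (s - s0)))) := by
    funext s
    simp [Ba1]
  rw [e]
  refine h4.congr_deriv ?_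
  have hs : Real.sin (c * (s - s0)) ^ 2 = 1 - Real.cos (c * (s - s0)) ^ 2 := Real.sin_sq _
  have e1 : ((fun s => 1 - Real.cos (c * (s - s0))) ^ (k + 1)) s
      = (1 - Real.cos (c * (s - s0))) ^ (k + 1) := rfl
  rw [e1]
  rw [Ba2, show k + 2 - 1 = k + 1 by omega, show k + 1 - 1 = k by omega]
  push_cast
  set x := Real.cos (c * (s - s0))
  set y := Real.sin (c * (s - s0))
  rw [pow_succ]
  linear_combination (K * (k + 2) * (k + 1) * (1 - x) ^ k * c ^ 2) * hs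

lemma cos_per {ℓ : ℝ} (hℓ : ℓ ≠ 0) (s0 s : ℝ) :
    Real.cos (2 * Real.pi / ℓ * (s + ℓ - s0)) = Real.cos (2 * Real.pi / ℓ * (s - s0)) := by
  rw [show 2 * Real.pi / ℓ * (s + ℓ - s0) = 2 * Real.pi / ℓ * (s - s0) + 2 * Real.pi by
    field_simp; ring, Real.cos_add_two_pi]

lemma sin_per {ℓ : ℝ} (hℓ : ℓ ≠ 0) (s0 s : ℝ) :
    Real.sin (2 * Real.pi / ℓ * (s + ℓ - s0)) = Real.sin (2 * Real.pi / ℓ * (s - s0)) := by
  rw [show 2 * Real.pi / ℓ * (s + ℓ - s0) = 2 * Real.pi / ℓ * (s - s0) + 2 * Real.pi by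
    field_simp; ring, Real.sin_add_two_pi]

lemma cos_le_far {ℓ r s s0 : ℝ} (hℓ : 0 < ℓ) (hr : 0 < r) (h0 : r ≤ s0) (h1 : s0 ≤ ℓ - r)
    (hs : s ∈ Icc 0 ℓ) (hd : r ≤ |s - s0|) :
    Real.cos (2 * Real.pi / ℓ * (s - s0)) ≤ Real.cos (2 * Real.pi / ℓ * r) := by
  have hpi := Real.pi_pos
  have h2 : |s - s0| ≤ ℓ - r := by
    rw [abs_le]
    constructor <;> linarith [hs.1, hs.2]
  rw [← Real.cos_abs, abs_mul, abs_of_pos (by positivity : 0 < 2 * Real.pi / ℓ)]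
  set d := |s - s0| with hdef
  have e2 : 2 * Real.pi / ℓ * ℓ = 2 * Real.pi := by field_simp
  have hcpos : 0 < 2 * Real.pi / ℓ := by positivity
  rcases le_total (2 * Real.pi / ℓ * d) Real.pi with h | h
  · exact Real.cos_le_cos_of_nonneg_of_le_pi (by positivity) h
      (mul_le_mul_of_nonneg_left hd hcpos.le)
  · have e3 : Real.cos (2 * Real.pi / ℓ * d) = Real.cos (2 * Real.pi - 2 * Real.pi / ℓ * d) := by
      rw [Real.cos_two_pi_sub]
    rw [e3]
    refine Real.cos_le_cos_of_nonneg_of_le_pi (by positivity) (by linarith) ?_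
    have : 2 * Real.pi / ℓ * d ≤ 2 * Real.pi / ℓ * (ℓ - r) := mul_le_mul_of_nonneg_left h2 hcpos.le
    rw [mul_sub, e2] at this
    linarith

/-- the differential inequality for small `K` -/
lemma exists_K {p lam c : ℝ} {n : ℕ} (hp : 0 < p) (hp1 : p < 1) (hlam : 0 < lam) (hc : 0 < c)
    (hn : 1 ≤ n * (1 - p)) : ∃ K > 0, K * 2 ^ n ≤ 1 ∧ ∀ s0 s,
      Ba2 K c n s0 s ≤ lam / 2 * ((Ba K c n s0 s) ^ p - Ba K c n s0 s) := by
  have hn0 : 0 < (n : ℝ) := by
    by_contra h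
    have h1 : (n : ℝ) ≤ 0 := not_lt.1 h
    nlinarith
  have hn1 : 1 ≤ n := by exact_mod_cast Nat.one_le_iff_ne_zero.2 (by
    rintro rfl; simp at hn0)
  have ht : Tendsto (fun K : ℝ => K ^ (1 - p)) (𝓝[>] 0) (𝓝 0) := by
    have h1 : ContinuousAt (fun K : ℝ => K ^ (1 - p)) 0 :=
      Real.continuousAt_rpow_const 0 (1 - p) (Or.inr (by linarith))
    have h2 := h1.tendsto
    simp only [Real.zero_rpow (show (1 - p) ≠ 0 by linarith)] at h2
    exact h2.mono_left nhdsWithin_le_nhds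
  have hA : 0 < lam / (4 * n * (2 * n) * c ^ 2 * 2 ^ n) := by positivity
  have hB : 0 < (1 / 2 : ℝ) * ((1 / 2 : ℝ) ^ n) ^ (1 - p) := by positivity
  have hev := ((ht.eventually (gt_mem_nhds hA)).and (ht.eventually (gt_mem_nhds hB))).and
    (self_mem_nhdsWithin)
  obtain ⟨K, ⟨hK1, hK2⟩, hK0⟩ := hev.exists
  have hK0 : 0 < K := hK0
  have hKs : (K * 2 ^ n) ^ (1 - p) ≤ 1 / 2 := by
    have : K ^ (1 - p) * ((2 : ℝ) ^ n) ^ (1 - p) ≤ 1 / 2 * (((1 / 2 : ℝ) ^ n) ^ (1 - p)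
        * ((2 : ℝ) ^ n) ^ (1 - p)) := by
      rw [← mul_assoc]
      exact mul_le_mul_of_nonneg_right hK2.le (by positivity)
    rw [← Real.mul_rpow (by positivity) (by positivity), ← Real.mul_rpow (by positivity)
      (by positivity), ← mul_pow] at this
    simpa using this
  refine ⟨K, hK0, ?_, fun s0 s => ?_⟩
  · by_contra hcon
    push Not at hcon
    have : 1 ≤ (K * 2 ^ n) ^ (1 - p) := Real.one_le_rpow hcon.le (by linarith)
    linarith
  set w := 1 - Real.cos (c * (s - s0)) with hw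
  have hw0 : 0 ≤ w := by have := Real.cos_le_one (c * (s - s0)); linarith
  have hw2 : w ≤ 2 := by have := Real.neg_one_le_cos (c * (s - s0)); linarith
  set Φ := K * w ^ n with hΦ
  have hBa : Ba K c n s0 s = Φ := rfl
  have hΦ0 : 0 ≤ Φ := by positivity
  have hΦ1 : Φ ≤ K * 2 ^ n := by rw [hΦ]; gcongr
  -- `Φ ≤ Φ^p / 2`
  have h1 : Φ ≤ Φ ^ p / 2 := by
    rcases hΦ0.eq_or_lt with h | h
    · rw [← h, Real.zero_rpow hp.ne']; simp
    · have e : Φ = Φ ^ p * Φ ^ (1 - p) := by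
        rw [← Real.rpow_add h]; simp
      have h3 : Φ ^ (1 - p) ≤ 1 / 2 :=
        (Real.rpow_le_rpow hΦ0 hΦ1 (by linarith)).trans hKs
      calc Φ = Φ ^ p * Φ ^ (1 - p) := e
        _ ≤ Φ ^ p * (1 / 2) := mul_le_mul_of_nonneg_left h3 (Real.rpow_nonneg hΦ0 _)
        _ = Φ ^ p / 2 := by ring
  -- `w^(n-1) ≤ 2^n * (w^n)^p`
  have h2 : w ^ (n - 1) ≤ 2 ^ n * (w ^ n) ^ p := by
    rcases hw0.eq_or_lt with h | h
    · rw [← h]
      rcases Nat.lt_or_ge 1 n with h1 | h1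
      · rw [zero_pow (by omega)]; positivity
      · exfalso
        have : n = 1 := by omega
        subst this
        simp at hn
        linarith
    · have e1 : w ^ (n - 1) = w ^ ((n : ℝ) - 1) := by
        rw [← Real.rpow_natCast, Nat.cast_sub hn1, Nat.cast_one]
      have e2 : (w ^ n) ^ p = w ^ ((n : ℝ) * p) := by
        rw [← Real.rpow_natCast, ← Real.rpow_mul hw0]
      have e3 : w ^ ((n : ℝ) - 1) = w ^ ((n : ℝ) * (1 - p) - 1) * w ^ ((n : ℝ) * p) := by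
        rw [← Real.rpow_add h]; congr 1; ring
      rw [e1, e2, e3]
      refine mul_le_mul_of_nonneg_right ?_ (Real.rpow_nonneg hw0 _)
      calc w ^ ((n : ℝ) * (1 - p) - 1) ≤ 2 ^ ((n : ℝ) * (1 - p) - 1) :=
            Real.rpow_le_rpow hw0 hw2 (by linarith)
        _ ≤ 2 ^ (n : ℝ) := Real.rpow_le_rpow_of_exponent_le (by norm_num) (by nlinarith)
        _ = 2 ^ n := Real.rpow_natCast _ _
  have h3 : Ba2 K c n s0 s ≤ K * n * c ^ 2 * (2 * n) * w ^ (n - 1) := by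
    have : Ba2 K c n s0 s = K * n * c ^ 2 * w ^ (n - 1) * (2 * n - 1 - n * w) := rfl
    rw [this]
    have h4 : (2 * n - 1 - n * w : ℝ) ≤ 2 * n := by nlinarith
    have h5 : 0 ≤ K * n * c ^ 2 * w ^ (n - 1) := by positivity
    calc K * n * c ^ 2 * w ^ (n - 1) * (2 * n - 1 - n * w)
        ≤ K * n * c ^ 2 * w ^ (n - 1) * (2 * n) := mul_le_mul_of_nonneg_left h4 h5
      _ = _ := by ring
  have h4 : K * n * c ^ 2 * (2 * n) * 2 ^ n ≤ lam / 4 * K ^ p := by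
    have e : K = K ^ (1 - p) * K ^ p := by rw [← Real.rpow_add hK0]; simp
    have h5 : K ^ (1 - p) * (4 * n * (2 * n) * c ^ 2 * 2 ^ n) ≤ lam := by
      rw [← le_div_iff₀ (by positivity)]; exact hK1.le
    calc K * n * c ^ 2 * (2 * n) * 2 ^ n
        = (K ^ (1 - p) * (4 * n * (2 * n) * c ^ 2 * 2 ^ n)) / 4 * K ^ p := by
          conv_lhs => rw [e]
          ring
      _ ≤ lam / 4 * K ^ p := by
          refine mul_le_mul_of_nonneg_right ?_ (Real.rpow_nonneg hK0.le _)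
          linarith
  have h6 : Φ ^ p = K ^ p * (w ^ n) ^ p := Real.mul_rpow hK0.le (by positivity)
  rw [hBa]
  calc Ba2 K c n s0 s ≤ K * n * c ^ 2 * (2 * n) * w ^ (n - 1) := h3
    _ ≤ K * n * c ^ 2 * (2 * n) * (2 ^ n * (w ^ n) ^ p) :=
        mul_le_mul_of_nonneg_left h2 (by positivity)
    _ = K * n * c ^ 2 * (2 * n) * 2 ^ n * (w ^ n) ^ p := by ring
    _ ≤ lam / 4 * K ^ p * (w ^ n) ^ p := mul_le_mul_of_nonneg_right h4 (by positivity)
    _ = lam / 2 * (Φ ^ p / 2) := by rw [h6]; ring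
    _ ≤ lam / 2 * (Φ ^ p - Φ) := mul_le_mul_of_nonneg_left (by linarith) (by positivity)

end Pool.Agent.Lib.MP_e46711_an.H21
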