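import Pool.Agent.Lib.MP_e46711_an.H21.Dead

/-!
# B7: local dead cores, the comparison argument
-/

open Set Filter Topology MeasureTheory
open scoped ContDiff

namespace Pool.Agent.Lib.MP_e46711_an.H21

lemma measurable_gg {p : ℝ} : Measurable (gg p) := by
  have e : gg p = fun x => x - (if 0 < x then x ^ p else if x < 0 then -((-x) ^ p) else 0) := by
    funext x
    rcases lt_trichotomy x 0 with h | h | h
    · simp [gg, sp, sign_neg h, abs_of_neg h, h, not_lt.2 h.le]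
    · simp [gg, sp, h]
    · simp [gg, sp, sign_pos h, abs_of_pos h, h]
  rw [e]
  refine measurable_id.sub (Measurable.ite measurableSet_Ioi (measurable_id.pow_const p) ?_)
  exact Measurable.ite measurableSet_Iio ((measurable_id.neg.pow_const p).neg) measurable_const

lemma abs_gg_le {p x : ℝ} (hp : 0 < p) (hp1 : p < 1) : |gg p x| ≤ 1 + 2 * |x| := by
  have h1 : |sp p x| ≤ 1 + |x| := by
    have h2 : |x| ^ p ≤ 1 + |x| := by
      rcases le_total |x| 1 with h | h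
      · have := Real.rpow_le_one (abs_nonneg x) h hp.le
        have := abs_nonneg x
        linarith
      · have := Real.rpow_le_rpow_of_exponent_le h hp1.le
        rw [Real.rpow_one] at this
        linarith
    have h3 : |sp p x| ≤ |x| ^ p := by
      rw [sp, abs_mul, abs_of_nonneg (Real.rpow_nonneg (abs_nonneg x) p)]
      have : |((SignType.sign x : SignType) : ℝ)| ≤ 1 := by
        rcases lt_trichotomy x 0 with h | h | h
        · simp [sign_neg h]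
        · simp [h]
        · simp [sign_pos h]
      nlinarith [Real.rpow_nonneg (abs_nonneg x) p]
    exact h3.trans h2
  calc |gg p x| ≤ |x| + |sp p x| := abs_sub _ _
    _ ≤ 1 + 2 * |x| := by linarith

lemma memLp_gg {p ℓ : ℝ} (hp : 0 < p) (hp1 : p < 1) {U : ℝ × ℝ → ℝ} (hU : MemLp U 2 (muT ℓ)) :
    MemLp (fun z => gg p (U z)) 2 (muT ℓ) := by
  have h0 : MemLp (fun _ : ℝ × ℝ => (1 : ℝ)) 2 (muT ℓ) := memLp_const 1
  have h1 : MemLp (fun z => 2 * ‖U z‖) 2 (muT ℓ) := hU.norm.const_mul 2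
  refine (h0.add h1).mono (measurable_gg.comp_aemeasurable hU.aestronglyMeasurable.aemeasurable
    |>.aestronglyMeasurable) (ae_of_all _ fun z => ?_)
  have h2 : 0 ≤ 1 + 2 * |U z| := by positivity
  simp only [Pi.add_apply, Real.norm_eq_abs]
  rw [abs_of_nonneg h2]
  exact abs_gg_le hp hp1

section

variable {ℓ δ : ℝ} {h : ℝ → ℝ}

lemma cont_h (hsm : ContDiff ℝ ∞ h) : Continuous fun z : ℝ × ℝ => h z.1 :=
  hsm.continuous.comp continuous_fst

lemma cont_om (hsm : ContDiff ℝ ∞ h) : Continuous (om ℓ h δ) := by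
  unfold om
  have := cont_h hsm
  fun_prop

lemma cont_dh (hsm : ContDiff ℝ ∞ h) : Continuous (deriv h) :=
  hsm.continuous_deriv (by simp)

lemma memLp_G1 (hsm : ContDiff ℝ ∞ h) (hpos : ∀ s, 0 < h s) {V W : ℝ × ℝ → ℝ}
    (hV : MemLp V 2 (muT ℓ)) (hW : MemLp W 2 (muT ℓ)) : MemLp (G1 h V W) 2 (muT ℓ) := by
  have h1 : Continuous fun z : ℝ × ℝ => deriv h z.1 / h z.1 * z.2 :=
    (((cont_dh hsm).comp continuous_fst).div (cont_h hsm) fun z => (hpos z.1).ne').mul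
      continuous_snd
  exact hV.sub (memLp_mulc h1 hW)

lemma memLp_G2 (hsm : ContDiff ℝ ∞ h) (hpos : ∀ s, 0 < h s) (hδ : 0 < δ) {W : ℝ × ℝ → ℝ}
    (hW : MemLp W 2 (muT ℓ)) : MemLp (G2 h δ W) 2 (muT ℓ) := by
  have h1 : Continuous fun z : ℝ × ℝ => (δ * h z.1)⁻¹ :=
    (continuous_const.mul (cont_h hsm)).inv₀ fun z => (mul_pos hδ (hpos z.1)).ne'
  refine (memLp_mulc h1 hW).ae_eq (ae_of_all _ fun z => ?_)
  simp only [G2]
  ring

lemma int_Bil (hsm : ContDiff ℝ ∞ h) (hpos : ∀ s, 0 < h s) (hδ : 0 < δ) {V W V' W' : ℝ × ℝ → ℝ}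
    (hV : MemLp V 2 (muT ℓ)) (hW : MemLp W 2 (muT ℓ)) (hV' : MemLp V' 2 (muT ℓ))
    (hW' : MemLp W' 2 (muT ℓ)) :
    Integrable (fun z => (G1 h V W z * G1 h V' W' z + G2 h δ W z * G2 h δ W' z) * (h z.1 / 2))
      (muT ℓ) := by
  have hc : Continuous fun z : ℝ × ℝ => h z.1 / 2 := (cont_h hsm).div_const 2
  have h1 := int_mulc hc (memLp_G1 hsm hpos hV hW) (memLp_G1 hsm hpos hV' hW')
  have h2 := int_mulc hc (memLp_G2 hsm hpos hδ hW) (memLp_G2 hsm hpos hδ hW')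
  refine (h1.add h2).congr (ae_of_all _ fun z => ?_)
  simp only [Pi.add_apply]
  ring

end

lemma contDiff_Ba (K c : ℝ) (n : ℕ) (s0 : ℝ) : ContDiff ℝ ∞ (Ba K c n s0) := by
  unfold Ba
  fun_prop

lemma contDiff_Ba1 (K c : ℝ) (n : ℕ) (s0 : ℝ) : ContDiff ℝ ∞ (Ba1 K c n s0) := by
  unfold Ba1
  fun_prop

lemma cont_Ba2 (K c : ℝ) (n : ℕ) (s0 : ℝ) : Continuous (Ba2 K c n s0) := by
  unfold Ba2
  fun_prop

/-- the cutoff -/
noncomputable def Ze (c w1 s0 s : ℝ) : ℝ :=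
  Real.smoothTransition (2 * (w1 - (1 - Real.cos (c * (s - s0)))) / w1)

lemma contDiff_Ze (c w1 s0 : ℝ) : ContDiff ℝ ∞ (Ze c w1 s0) := by
  unfold Ze
  refine Real.smoothTransition.contDiff.comp ?_
  fun_prop

lemma Ze_zero {c w1 s0 s : ℝ} (hw : 0 < w1) (h : w1 ≤ 1 - Real.cos (c * (s - s0))) :
    Ze c w1 s0 s = 0 ∧ deriv (Ze c w1 s0) s = 0 := by
  have h0 : Ze c w1 s0 s = 0 := by
    rw [Ze, Real.smoothTransition.zero_iff_nonpos]
    exact div_nonpos_of_nonpos_of_nonneg (by linarith) hw.le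
  refine ⟨h0, ?_⟩
  refine IsLocalMin.deriv_eq_zero (Eventually.of_forall fun x => ?_)
  rw [h0]
  exact Real.smoothTransition.nonneg _

lemma Ze_one {c w1 s0 s : ℝ} (hw : 0 < w1) (h : 1 - Real.cos (c * (s - s0)) ≤ w1 / 2) :
    Ze c w1 s0 s = 1 ∧ deriv (Ze c w1 s0) s = 0 := by
  have h0 : Ze c w1 s0 s = 1 := by
    rw [Ze]
    refine Real.smoothTransition.one_of_one_le ?_
    rw [le_div_iff₀ hw]
    linarith
  refine ⟨h0, ?_⟩
  refine IsLocalMax.deriv_eq_zero (Eventually.of_forall fun x => ?_)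
  rw [h0]
  exact Real.smoothTransition.le_one _

lemma deriv_h_zero {h : ℝ → ℝ} {α β s : ℝ} (hc : ∀ s ∈ Icc α β, h s = h α) (hs : s ∈ Ioo α β) :
    deriv h s = 0 := by
  have : h =ᶠ[𝓝 s] fun _ => h α := by
    filter_upwards [Ioo_mem_nhds hs.1 hs.2] with x hx
    exact hc x ⟨hx.1.le, hx.2.le⟩
  rw [this.deriv_eq]
  simp

/-- comparison with the barrier -/
theorem core (hB : H1TBasic) (hT : H1TTrunc) (hWE : WeakExtend) {p lam ℓ δ : ℝ} {h : ℝ → ℝ}
    (hp : 0 < p) (hp1 : p < 1) (hℓ : 0 < ℓ) (hsm : ContDiff ℝ ∞ h)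
    (hper : ∀ s, h (s + ℓ) = h s) (hpos : ∀ s, 0 < h s) (hlam : 0 < lam) (hδ : 0 < δ)
    {α β : ℝ} (hα : 0 < α) (hαβ : α < β) (hβ : β < ℓ) (hc : ∀ s ∈ Icc α β, h s = h α)
    {K : ℝ} {n : ℕ} (hn : 2 ≤ n) (hK : 0 < K) (hK1 : K * 2 ^ n ≤ 1)
    (hBa : ∀ s0 s, Ba2 K (2 * Real.pi / ℓ) n s0 s ≤
      lam / 2 * ((Ba K (2 * Real.pi / ℓ) n s0 s) ^ p - Ba K (2 * Real.pi / ℓ) n s0 s))
    {η : ℝ} (hη2 : 2 ≤ p * η ^ (p - 1))
    (hη3 : η < K * ((1 - Real.cos (2 * Real.pi / ℓ * ((β - α) / 4))) / 2) ^ n)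
    (hom : ∀ᵐ z ∂muT ℓ, 1 / 2 ≤ om ℓ h δ z)
    {U V W : ℝ × ℝ → ℝ} (hS : WSol p lam ℓ h δ U V W) (hU0 : ∀ᵐ z ∂muT ℓ, 0 ≤ U z)
    (hUη : ∀ᵐ z ∂muT ℓ, z.1 ∈ Icc α β → U z ≤ η) {s0 : ℝ}
    (hs0 : s0 ∈ Icc (α + (β - α) / 4) (β - (β - α) / 4)) :
    ∀ᵐ z ∂muT ℓ, 1 - Real.cos (2 * Real.pi / ℓ * (z.1 - s0)) <
      1 - Real.cos (2 * Real.pi / ℓ * ((β - α) / 4)) → U z ≤ Ba K (2 * Real.pi / ℓ) n s0 z.1 := by
  classical
  set c := 2 * Real.pi / ℓ with hcdef
  set r := (β - α) / 4 with hr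
  set w1 := 1 - Real.cos (c * r) with hw1
  have hr0 : 0 < r := by rw [hr]; linarith
  have hcpos : 0 < c := by rw [hcdef]; positivity
  have hcr : 0 < c * r ∧ c * r < Real.pi := by
    refine ⟨by positivity, ?_⟩
    rw [hcdef, div_mul_eq_mul_div, div_lt_iff₀ hℓ]
    have := Real.pi_pos
    have : r < ℓ / 2 := by rw [hr]; linarith
    nlinarith
  have hw10 : 0 < w1 := by
    have := Real.cos_lt_cos_of_nonneg_of_le_pi le_rfl hcr.2.le hcr.1
    rw [Real.cos_zero] at this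
    linarith
  -- near `s0`
  have hnear : ∀ s ∈ Icc 0 ℓ, 1 - Real.cos (c * (s - s0)) < w1 → s ∈ Ioo α β := by
    intro s hs hw
    by_contra hcon
    have hfar : r ≤ |s - s0| := by
      by_contra h2
      push Not at h2
      rw [abs_lt] at h2
      exact hcon ⟨by linarith [hs0.1, h2.1], by linarith [hs0.2, h2.2]⟩
    have := cos_le_far hℓ hr0 (by linarith [hs0.1]) (by linarith [hs0.2]) hs hfar
    rw [← hcdef] at this
    linarith
  set Φ := Ba K c n s0 with hΦ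
  set Φ1 := Ba1 K c n s0 with hΦ1
  set Φ2 := Ba2 K c n s0 with hΦ2
  have hdΦ : ∀ s, HasDerivAt Φ (Φ1 s) s := hasDeriv_Ba K c n s0
  have hdΦ1 : ∀ s, HasDerivAt Φ1 (Φ2 s) s := hasDeriv_Ba1 K c hn s0
  have hΦper : ∀ s, Φ (s + ℓ) = Φ s := fun s => by
    simp only [hΦ, Ba, hcdef, cos_per hℓ.ne']
  have hΦ1per : ∀ s, Φ1 (s + ℓ) = Φ1 s := fun s => by
    simp only [hΦ1, Ba1, hcdef, cos_per hℓ.ne', sin_per hℓ.ne']
  have hΦ0 : ∀ s, 0 ≤ Φ s := fun s => by
    have : 0 ≤ 1 - Real.cos (c * (s - s0)) := by linarith [Real.cos_le_one (c * (s - s0))]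
    simp only [hΦ, Ba]
    positivity
  have hΦle : ∀ s, Φ s ≤ 1 := fun s => by
    have h0 : 0 ≤ 1 - Real.cos (c * (s - s0)) := by linarith [Real.cos_le_one (c * (s - s0))]
    have h2 : 1 - Real.cos (c * (s - s0)) ≤ 2 := by
      linarith [Real.neg_one_le_cos (c * (s - s0))]
    refine le_trans ?_ hK1
    simp only [hΦ, Ba]
    gcongr
  have hζsm := contDiff_Ze c w1 s0
  have hζper : ∀ s, Ze c w1 s0 (s + ℓ) = Ze c w1 s0 s := fun s => by
    simp only [Ze, hcdef, cos_per hℓ.ne']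
  have hCΦ : C1per ℓ fun z : ℝ × ℝ => Φ z.1 :=
    c1per_fst ((contDiff_Ba K c n s0).of_le (by simp)) hΦper
  have hCΦ1 : C1per ℓ fun z : ℝ × ℝ => Φ1 z.1 :=
    c1per_fst ((contDiff_Ba1 K c n s0).of_le (by simp)) hΦ1per
  have hCζ : C1per ℓ fun z : ℝ × ℝ => Ze c w1 s0 z.1 :=
    c1per_fst (hζsm.of_le (by simp)) hζper
  have hdζ : ∀ s, HasDerivAt (Ze c w1 s0) (deriv (Ze c w1 s0) s) s := fun s =>
    (hζsm.differentiable (by simp) s).hasDerivAt
  -- the functions `U - Φ`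
  obtain ⟨b1, b2, b3, b4, -, -⟩ := hB ℓ hℓ
  have hUΦ : H1T ℓ (fun z => U z - Φ z.1) (fun z => V z - Φ1 z.1) W := by
    have h1 := b2 _ _ _ _ _ _ hS.h1 (b3 (-1) _ _ _ (b1 _ hCΦ))
    refine b4 _ _ _ _ _ _ h1 (ae_of_all _ fun z => ?_) (ae_of_all _ fun z => ?_)
      (ae_of_all _ fun z => ?_)
    · simp only; ring
    · simp only [dS_fst (hdΦ z.1)]; ring
    · simp only [dY_fst (hdΦ z.1)]; ring
  have h2 := (hT ℓ hℓ _ _ _ hUΦ).1
  have h3 := (hT ℓ hℓ _ _ _ h2).2 _ hCζ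
  -- the test function
  set D : ℝ × ℝ → Prop := fun z => 1 - Real.cos (c * (z.1 - s0)) < w1 ∧ 0 < U z - Φ z.1 with hD
  set T : ℝ × ℝ → ℝ := fun z => if D z then U z - Φ z.1 else 0 with hTdef
  set VT : ℝ × ℝ → ℝ := fun z => if D z then V z - Φ1 z.1 else 0 with hVT
  set WT : ℝ × ℝ → ℝ := fun z => if D z then W z else 0 with hWT
  have key : ∀ᵐ z ∂muT ℓ, (¬ D z → (Ze c w1 s0 z.1 = 0 ∧ deriv (Ze c w1 s0) z.1 = 0) ∨
      ¬ 0 < U z - Φ z.1) ∧ (D z → Ze c w1 s0 z.1 = 1 ∧ deriv (Ze c w1 s0) z.1 = 0) := by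
    filter_upwards [ae_mem ℓ, hUη] with z hz hη
    refine ⟨fun hn => ?_, fun hd => ?_⟩
    · by_cases hw : 1 - Real.cos (c * (z.1 - s0)) < w1
      · right
        exact fun h => hn ⟨hw, h⟩
      · left
        exact Ze_zero hw10 (not_lt.1 hw)
    · refine Ze_one hw10 ?_
      by_contra hcon
      push Not at hcon
      have h5 := hnear z.1 ⟨hz.1.1.le, hz.1.2⟩ hd.1
      have h6 := hη ⟨h5.1.le, h5.2.le⟩
      have h7 : K * (w1 / 2) ^ n ≤ Φ z.1 := by
        simp only [hΦ, Ba]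
        gcongr
      linarith [hd.2]
  have hTH : H1T ℓ T VT WT := by
    refine b4 _ _ _ _ _ _ h3 ?_ ?_ ?_
    · filter_upwards [key] with z hz
      by_cases hd : D z
      · simp only [hTdef, if_pos hd, (hz.2 hd).1, one_mul, max_eq_left hd.2.le]
      · simp only [hTdef, if_neg hd]
        rcases hz.1 hd with h | h
        · rw [h.1, zero_mul]
        · rw [max_eq_right (not_lt.1 h), mul_zero]
    · filter_upwards [key] with z hz
      simp only [dS_fst (hdζ z.1)]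
      by_cases hd : D z
      · simp only [hVT, if_pos hd, (hz.2 hd).1, (hz.2 hd).2, if_pos hd.2]
        ring
      · simp only [hVT, if_neg hd]
        rcases hz.1 hd with h | h
        · rw [h.1, h.2]; ring
        · rw [max_eq_right (not_lt.1 h), if_neg h]; ring
    · filter_upwards [key] with z hz
      simp only [dY_fst (hdζ z.1)]
      by_cases hd : D z
      · simp only [hWT, if_pos hd, (hz.2 hd).1, if_pos hd.2]
        ring
      · simp only [hWT, if_neg hd]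
        rcases hz.1 hd with h | h
        · rw [h.1]; ring
        · rw [max_eq_right (not_lt.1 h), if_neg h]; ring
  -- integration by parts
  have hibp : ∫ z, Φ1 z.1 * VT z ∂muT ℓ = - ∫ z, Φ2 z.1 * T z ∂muT ℓ := by
    have h5 := int_V hℓ ((hT ℓ hℓ _ _ _ hTH).2 _ hCΦ1)
    have h6 : ∀ z : ℝ × ℝ, dS (fun z : ℝ × ℝ => Φ1 z.1) z = Φ2 z.1 := fun z => dS_fst (hdΦ1 z.1)
    simp only [h6] at h5
    have j1 : Integrable (fun z : ℝ × ℝ => Φ1 z.1 * VT z) (muT ℓ) :=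
      int_of_memLp (memLp_mulc ((contDiff_Ba1 K c n s0).continuous.comp continuous_fst) hTH.mV)
    have j2 : Integrable (fun z : ℝ × ℝ => Φ2 z.1 * T z) (muT ℓ) :=
      int_of_memLp (memLp_mulc ((cont_Ba2 K c n s0).comp continuous_fst) hTH.mU)
    rw [integral_add j1 j2] at h5
    linarith
  -- the equation
  have heq := hWE p ⟨hp, hp1⟩ ℓ hℓ h hsm hper hpos δ hδ lam U V W hS T VT WT hTH
  have hD1 : ∀ᵐ z ∂muT ℓ, D z → h z.1 = h α ∧ deriv h z.1 = 0 ∧ U z ≤ η := by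
    filter_upwards [ae_mem ℓ, hUη] with z hz hη hd
    have h5 := hnear z.1 ⟨hz.1.1.le, hz.1.2⟩ hd.1
    exact ⟨hc _ ⟨h5.1.le, h5.2.le⟩, deriv_h_zero hc h5, hη ⟨h5.1.le, h5.2.le⟩⟩
  have hI1 : (h α / 2) * ∫ z, Φ1 z.1 * VT z ∂muT ℓ ≤ Bil ℓ h δ V W VT WT := by
    rw [← integral_const_mul, Bil]
    refine integral_mono_ae ?_ (int_Bil hsm hpos hδ hS.h1.mV hS.h1.mW hTH.mV hTH.mW) ?_
    · exact (int_of_memLp (memLp_mulc ((contDiff_Ba1 K c n s0).continuous.comp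
        continuous_fst) hTH.mV)).const_mul _
    · filter_upwards [hD1] with z hz
      by_cases hd : D z
      · obtain ⟨e1, e2, -⟩ := hz hd
        have hh := hpos α
        simp only [G1, G2, hVT, hWT, if_pos hd, e1, e2]
        have h8 : 0 ≤ W z / (δ * h α) * (W z / (δ * h α)) := mul_self_nonneg _
        have h9 : 0 ≤ (V z - Φ1 z.1) * (V z - Φ1 z.1) := mul_self_nonneg _
        have h10 : 0 ≤ ((V z - Φ1 z.1) * (V z - Φ1 z.1)
            + W z / (δ * h α) * (W z / (δ * h α))) * (h α / 2) := by positivity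
        rw [← sub_nonneg]
        refine h10.trans_eq ?_
        ring
      · simp only [G1, G2, hVT, hWT, if_neg hd]
        simp
  have hI2 : lam * Inu ℓ h δ (fun z => gg p (U z) * T z) + (h α / 2) * ∫ z, Φ2 z.1 * T z ∂muT ℓ
      ≤ - lam * ∫ z, h z.1 * om ℓ h δ z / 2 * (T z * T z) ∂muT ℓ := by
    have hcc : Continuous fun z : ℝ × ℝ => h z.1 * om ℓ h δ z / 2 :=
      ((cont_h hsm).mul (cont_om hsm)).div_const 2
    have i1 : Integrable (fun z => gg p (U z) * T z * (h z.1 * om ℓ h δ z / 2)) (muT ℓ) := by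
      refine (int_mulc hcc (memLp_gg hp hp1 hS.h1.mU) hTH.mU).congr (ae_of_all _ fun z => ?_)
      simp only
      ring
    have i2 : Integrable (fun z => Φ2 z.1 * T z) (muT ℓ) :=
      int_of_memLp (memLp_mulc ((cont_Ba2 K c n s0).comp continuous_fst) hTH.mU)
    have i3 := int_mulc hcc hTH.mU hTH.mU
    rw [Inu, ← integral_const_mul, ← integral_const_mul, ← integral_const_mul,
      ← integral_add (i1.const_mul _) (i2.const_mul _)]
    refine integral_mono_ae ((i1.const_mul _).add (i2.const_mul _)) (i3.const_mul _) ?_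
    filter_upwards [hD1, hom, hU0] with z hz ho hu
    by_cases hd : D z
    · obtain ⟨e1, -, e3⟩ := hz hd
      have hh := hpos α
      have hlt : Φ z.1 < U z := by linarith [hd.2]
      have g1 := gg_sub_le hp hp1 hη2 (hΦ0 z.1) hlt e3
      have g2 : gg p (Φ z.1) = Φ z.1 - Φ z.1 ^ p := gg_nonneg hp (hΦ0 z.1)
      have g3 : Φ2 z.1 ≤ lam / 2 * (Φ z.1 ^ p - Φ z.1) := hBa s0 z.1
      have g4 : Φ z.1 ≤ Φ z.1 ^ p := by
        have := Real.rpow_le_rpow_of_exponent_ge' (hΦ0 z.1) (hΦle z.1) hp.le hp1.le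
        simpa using this
      simp only [hTdef, if_pos hd, e1]
      set t := U z - Φ z.1 with ht
      have ht0 : 0 < t := hd.2
      set o := om ℓ h δ z
      have a1 : lam * (gg p (U z) * t * (h α * o / 2)) ≤
          lam * ((gg p (Φ z.1) - t) * t * (h α * o / 2)) := by
        have : gg p (U z) ≤ gg p (Φ z.1) - t := by rw [ht]; linarith
        have ho0 : 0 ≤ o := by linarith
        gcongr
      have a2 : h α / 2 * (Φ2 z.1 * t) ≤ h α / 2 * (lam / 2 * (Φ z.1 ^ p - Φ z.1) * t) := by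
        gcongr
      have a3 : lam * (gg p (Φ z.1) * t * (h α * o / 2)) + h α / 2 * (lam / 2 * (Φ z.1 ^ p
          - Φ z.1) * t) ≤ 0 := by
        rw [g2]
        have : lam * ((Φ z.1 - Φ z.1 ^ p) * t * (h α * o / 2)) + h α / 2 * (lam / 2 * (Φ z.1 ^ p
          - Φ z.1) * t) = - (lam * (h α / 2) * t * (Φ z.1 ^ p - Φ z.1) * (o - 1 / 2)) := by ring
        rw [this]
        have h10 : 0 ≤ Φ z.1 ^ p - Φ z.1 := by linarith
        have h11 : 0 ≤ o - 1 / 2 := by linarith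
        have : 0 ≤ lam * (h α / 2) * t * (Φ z.1 ^ p - Φ z.1) * (o - 1 / 2) := by positivity
        linarith
      have a4 : lam * ((gg p (Φ z.1) - t) * t * (h α * o / 2)) =
          lam * (gg p (Φ z.1) * t * (h α * o / 2)) - lam * (h α * o / 2 * (t * t)) := by ring
      linarith
    · simp only [hTdef, if_neg hd]
      simp
  -- conclusion
  have hfin : ∫ z, h z.1 * om ℓ h δ z / 2 * (T z * T z) ∂muT ℓ ≤ 0 := by
    rw [hibp, heq] at hI1
    have : 0 ≤ - lam * ∫ z, h z.1 * om ℓ h δ z / 2 * (T z * T z) ∂muT ℓ := by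
      refine le_trans ?_ hI2
      linarith
    nlinarith
  have hcc : Continuous fun z : ℝ × ℝ => h z.1 * om ℓ h δ z / 2 :=
    ((cont_h hsm).mul (cont_om hsm)).div_const 2
  have hnn : 0 ≤ᵐ[muT ℓ] fun z => h z.1 * om ℓ h δ z / 2 * (T z * T z) := by
    refine ae_of_all _ fun z => ?_
    have : 0 < om ℓ h δ z := Real.exp_pos _
    have := hpos z.1
    have := mul_self_nonneg (T z)
    simp only [Pi.zero_apply]
    positivity
  have hz := (integral_eq_zero_iff_of_nonneg_ae hnn (int_mulc hcc hTH.mU hTH.mU)).1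
    (le_antisymm hfin (integral_nonneg_of_ae hnn))
  filter_upwards [hz] with z hz hw
  by_contra hcon
  push Not at hcon
  have hd : D z := ⟨hw, by linarith⟩
  simp only [hTdef, if_pos hd, Pi.zero_apply] at hz
  have h1 : 0 < om ℓ h δ z := Real.exp_pos _
  have h2 := hpos z.1
  have h3 : 0 < U z - Φ z.1 := hd.2
  have : 0 < h z.1 * om ℓ h δ z / 2 * ((U z - Φ z.1) * (U z - Φ z.1)) := by positivity
  linarith

end Pool.Agent.Lib.MP_e46711_an.H21
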