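import Pool.Agent.Lib.MP_e46711_an.H21.Dead2

/-!
# B7: local dead cores, the statement
-/

open Set Filter Topology MeasureTheory
open scoped ContDiff

namespace Pool.Agent.Lib.MP_e46711_an.H21

lemma exists_bound_h {ℓ : ℝ} (hℓ : 0 < ℓ) {h : ℝ → ℝ} (hc : Continuous h)
    (hper : ∀ s, h (s + ℓ) = h s) : ∃ H > 0, ∀ s, |h s| ≤ H := by
  obtain ⟨M, hM⟩ := (isCompact_Icc (a := (0 : ℝ)) (b := ℓ)).exists_bound_of_continuousOn
    hc.continuousOn
  refine ⟨max M 1, by positivity, fun s => ?_⟩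
  have hp : Function.Periodic h ℓ := hper
  obtain ⟨y, hy, he⟩ := hp.exists_mem_Ico₀ hℓ s
  rw [he]
  exact (hM y ⟨hy.1, hy.2.le⟩).trans (le_max_left _ _)

/-- `ω ≥ 1/2` for small `δ` -/
lemma om_half {ℓ : ℝ} (hℓ : 0 < ℓ) {h : ℝ → ℝ} (hc : Continuous h)
    (hper : ∀ s, h (s + ℓ) = h s) :
    ∀ᶠ δ in 𝓝[>] (0 : ℝ), ∀ᵐ z ∂muT ℓ, 1 / 2 ≤ om ℓ h δ z := by
  obtain ⟨H, hH, hb⟩ := exists_bound_h hℓ hc hper
  have h1 : 0 < 1 / (2 * (4 * Real.pi * H / ℓ)) := by positivity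
  filter_upwards [self_mem_nhdsWithin, mem_nhdsWithin_of_mem_nhds (gt_mem_nhds h1)] with δ hδ hδ2
  have hδ : 0 < δ := hδ
  filter_upwards [ae_mem ℓ] with z hz
  have h2 : |4 * Real.pi * δ * h z.1 * z.2 / ℓ| ≤ 1 / 2 := by
    have h3 : |z.2| ≤ 1 := abs_le.2 ⟨hz.2.1.le, hz.2.2.le⟩
    have h4 : |4 * Real.pi * δ * h z.1 * z.2 / ℓ| = 4 * Real.pi * δ / ℓ * (|h z.1| * |z.2|) := by
      rw [abs_div, abs_mul, abs_mul, abs_of_pos hℓ, abs_of_pos (by positivity :
        0 < 4 * Real.pi * δ)]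
      ring
    rw [h4]
    have h5 : |h z.1| * |z.2| ≤ H * 1 := mul_le_mul (hb _) h3 (abs_nonneg _) hH.le
    have h6 : δ * (2 * (4 * Real.pi * H / ℓ)) ≤ 1 := by
      rw [← le_div_iff₀ (by positivity)]
      exact hδ2.le
    calc 4 * Real.pi * δ / ℓ * (|h z.1| * |z.2|) ≤ 4 * Real.pi * δ / ℓ * (H * 1) := by gcongr
      _ = (δ * (2 * (4 * Real.pi * H / ℓ))) / 2 := by ring
      _ ≤ 1 / 2 := by linarith
  rw [om]
  have h3 := (abs_le.1 h2).1
  have h4 := Real.add_one_le_exp (4 * Real.pi * δ * h z.1 * z.2 / ℓ)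
  linarith

/-- B7 -/
theorem localDead (hB : H1TBasic) (hT : H1TTrunc) (hWE : WeakExtend) : LocalDead := by
  intro p hp ℓ hℓ h hsm hper hpos lam hlam α β hα hαβ hβ hc
  obtain ⟨hp0, hp1⟩ := hp
  have hpi := Real.pi_pos
  -- parameters
  obtain ⟨n, hn⟩ := exists_nat_ge (max 2 (1 / (1 - p)))
  have hn2 : 2 ≤ n := by
    have : (2 : ℝ) ≤ n := (le_max_left _ _).trans hn
    exact_mod_cast this
  have hn1 : 1 ≤ n * (1 - p) := by
    have : 1 / (1 - p) ≤ n := (le_max_right _ _).trans hn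
    rwa [div_le_iff₀ (by linarith)] at this
  obtain ⟨K, hK, hK1, hBa⟩ := exists_K hp0 hp1 hlam (by positivity : 0 < 2 * Real.pi / ℓ) hn1
  set r := (β - α) / 4 with hr
  have hr0 : 0 < r := by rw [hr]; linarith
  set c := 2 * Real.pi / ℓ with hcdef
  have hcpos : 0 < c := by rw [hcdef]; positivity
  have hcr : c * r < Real.pi := by
    rw [hcdef, div_mul_eq_mul_div, div_lt_iff₀ hℓ]
    have : r < ℓ / 2 := by rw [hr]; linarith
    nlinarith
  have hw1 : 0 < 1 - Real.cos (c * r) := by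
    have := Real.cos_lt_cos_of_nonneg_of_le_pi le_rfl hcr.le (by positivity)
    rw [Real.cos_zero] at this
    linarith
  have hA : 0 < K * ((1 - Real.cos (c * r)) / 2) ^ n := by positivity
  -- `η`
  obtain ⟨η, hη0, hη2, hη3⟩ : ∃ η > 0, 2 ≤ p * η ^ (p - 1) ∧
      η < K * ((1 - Real.cos (c * r)) / 2) ^ n := by
    set e := min ((2 / p) ^ (1 / (p - 1))) (K * ((1 - Real.cos (c * r)) / 2) ^ n / 2) with he
    have he0 : 0 < e := lt_min (by positivity) (by positivity)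
    refine ⟨e, he0, ?_, ?_⟩
    · have h1 : e ^ (p - 1) ≥ ((2 / p) ^ (1 / (p - 1))) ^ (p - 1) :=
        Real.rpow_le_rpow_of_nonpos he0 (min_le_left _ _) (by linarith)
      rw [← Real.rpow_mul (by positivity), one_div_mul_cancel (by linarith), Real.rpow_one] at h1
      calc (2 : ℝ) = p * (2 / p) := by field_simp
        _ ≤ p * e ^ (p - 1) := by gcongr
    · have : e ≤ K * ((1 - Real.cos (c * r)) / 2) ^ n / 2 := min_le_right _ _
      linarith
  refine ⟨η, hη0, ?_⟩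
  filter_upwards [om_half hℓ hsm.continuous hper, self_mem_nhdsWithin] with δ hom hδ
  intro U V W hS hU0 hUη hpos'
  have hδ : 0 < δ := hδ
  -- comparison for all rational `s0`
  have hall : ∀ᵐ z ∂muT ℓ, ∀ q : ℚ, (q : ℝ) ∈ Icc (α + r) (β - r) →
      1 - Real.cos (c * (z.1 - q)) < 1 - Real.cos (c * r) → U z ≤ Ba K c n q z.1 := by
    rw [ae_all_iff]
    intro q
    by_cases hq : (q : ℝ) ∈ Icc (α + r) (β - r)
    · have := core hB hT hWE hp0 hp1 hℓ hsm hper hpos hlam hδ hα hαβ hβ hc hn2 hK hK1 hBa hη2 hη3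
        hom hS hU0 hUη hq
      filter_upwards [this] with z hz _ hw
      exact hz hw
    · exact ae_of_all _ fun z h => absurd h hq
  -- no point of the strip satisfies both
  have hno : ∀ᵐ z ∂muT ℓ, z.1 ∉ Ioo (α + r) (β - r) := by
    filter_upwards [hall, hpos'] with z hz hz2 hin
    -- `q ↦ Ba K c n q z.1` is continuous and vanishes at `q = z.1`
    have hcont : Continuous fun q : ℝ => Ba K c n q z.1 := by
      unfold Ba
      fun_prop
    have hcont2 : Continuous fun q : ℝ => 1 - Real.cos (c * (z.1 - q)) := by fun_prop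
    have e1 : Ba K c n z.1 z.1 < U z := by
      simp [Ba, zero_pow (by omega : n ≠ 0), hz2]
    have e2 : 1 - Real.cos (c * (z.1 - z.1)) < 1 - Real.cos (c * r) := by
      simpa using hw1
    have h1 : ∀ᶠ q in 𝓝 z.1, Ba K c n q z.1 < U z := hcont.continuousAt.eventually_lt
      continuousAt_const e1
    have h2 : ∀ᶠ q in 𝓝 z.1, 1 - Real.cos (c * (z.1 - q)) < 1 - Real.cos (c * r) :=
      hcont2.continuousAt.eventually_lt continuousAt_const e2
    have h3 : ∀ᶠ q in 𝓝 z.1, q ∈ Ioo (α + r) (β - r) := Ioo_mem_nhds hin.1 hin.2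
    obtain ⟨q, hq⟩ := (Rat.denseRange_cast (𝕜 := ℝ)).exists_mem_open
      (isOpen_interior (s := {q : ℝ | (Ba K c n q z.1 < U z ∧
        1 - Real.cos (c * (z.1 - q)) < 1 - Real.cos (c * r)) ∧ q ∈ Ioo (α + r) (β - r)}))
      ⟨z.1, mem_interior_iff_mem_nhds.2 ((h1.and h2).and h3)⟩
    have hq := interior_subset hq
    exact absurd (hz q ⟨hq.2.1.le, hq.2.2.le⟩ hq.1.2) (not_le.2 hq.1.1)
  -- but the strip has positive measure
  have hmeas : muT ℓ (Ioo (α + r) (β - r) ×ˢ Ioo (-1 : ℝ) 1) = 0 := by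
    rw [measure_eq_zero_iff_ae_notMem]
    filter_upwards [hno] with z hz hz2
    exact hz hz2.1
  rw [muT_eq, Measure.restrict_apply (measurableSet_Ioo.prod measurableSet_Ioo),
    Set.prod_inter_prod, inter_self, Measure.volume_eq_prod, Measure.prod_prod] at hmeas
  have hsub : Ioo (α + r) (β - r) ∩ Ioc 0 ℓ = Ioo (α + r) (β - r) := by
    rw [inter_eq_left]
    intro s hs
    exact ⟨by linarith [hs.1], by linarith [hs.2]⟩
  rw [hsub, Real.volume_Ioo, Real.volume_Ioo, mul_eq_zero] at hmeas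
  rcases hmeas with h1 | h1
  · rw [ENNReal.ofReal_eq_zero] at h1
    rw [hr] at h1
    linarith
  · rw [ENNReal.ofReal_eq_zero] at h1
    linarith

end Pool.Agent.Lib.MP_e46711_an.H21
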