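import Pool.Agent.Lib.MP_e46711_an.H21.T32Dc

/-!
# MP_e46711_an, module B1c: `T32D`
-/

set_option autoImplicit false

open Set Filter Topology MeasureTheory
open scoped ContDiff

namespace Pool.Agent.Lib.MP_e46711_an.H21

open Pool.Agent.Lib.MP_e46711_an

variable {ℓ : ℝ} {h : ℝ → ℝ} {δ : ℝ}

open H1 in
/-- continuity of the form -/
theorem bil_tendsto (hs : ContDiff ℝ ∞ h) (hpos : ∀ s, 0 < h s) (hδ : 0 < δ)
    {Vn Wn : ℕ → ℝ × ℝ → ℝ} {V W : ℝ × ℝ → ℝ} (hV : L2T (muT ℓ) Vn V) (hW : L2T (muT ℓ) Wn W) :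
    Tendsto (fun n => Bil ℓ h δ (Vn n) (Wn n) (Vn n) (Wn n)) atTop (𝓝 (Bil ℓ h δ V W V W)) := by
  have ch := hs.continuous
  have cm := H19.mult_cont hs hpos
  have cg : Continuous fun z : ℝ × ℝ => (δ * h z.1)⁻¹ :=
    (continuous_const.mul (ch.comp continuous_fst)).inv₀ fun z => (mul_pos hδ (hpos _)).ne'
  have ch2 : Continuous fun z : ℝ × ℝ => h z.1 / 2 := (ch.comp continuous_fst).div_const 2
  obtain ⟨K1, -, -, hK1⟩ := bdd_muT cm ℓ
  obtain ⟨K2, -, -, hK2⟩ := bdd_muT cg ℓ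
  obtain ⟨K3, -, -, hK3⟩ := bdd_muT ch2 ℓ
  have g1 : L2T (muT ℓ) (fun n z => Vn n z - deriv h z.1 / h z.1 * z.2 * Wn n z)
      (fun z => V z - deriv h z.1 / h z.1 * z.2 * W z) :=
    hV.sub (hW.bdd_mul cm.aestronglyMeasurable K1 hK1)
  have g2 : L2T (muT ℓ) (fun n z => (δ * h z.1)⁻¹ * Wn n z) (fun z => (δ * h z.1)⁻¹ * W z) :=
    hW.bdd_mul cg.aestronglyMeasurable K2 hK2
  have t1 := (g1.bdd_mul ch2.aestronglyMeasurable K3 hK3).inner g1
  have t2 := (g2.bdd_mul ch2.aestronglyMeasurable K3 hK3).inner g2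
  have e : ∀ V W : ℝ × ℝ → ℝ, MemLp V 2 (muT ℓ) → MemLp W 2 (muT ℓ) → Bil ℓ h δ V W V W
      = (∫ z, h z.1 / 2 * (V z - deriv h z.1 / h z.1 * z.2 * W z)
          * (V z - deriv h z.1 / h z.1 * z.2 * W z) ∂muT ℓ)
        + ∫ z, h z.1 / 2 * ((δ * h z.1)⁻¹ * W z) * ((δ * h z.1)⁻¹ * W z) ∂muT ℓ := by
    intro V W mV mW
    have m1 : MemLp (fun z => V z - deriv h z.1 / h z.1 * z.2 * W z) 2 (muT ℓ) :=
      mV.sub (H19.memLp_mul cm mW)
    have m2 : MemLp (fun z => (δ * h z.1)⁻¹ * W z) 2 (muT ℓ) := H19.memLp_mul cg mW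
    have i1 : Integrable (fun z => h z.1 / 2 * (V z - deriv h z.1 / h z.1 * z.2 * W z)
          * (V z - deriv h z.1 / h z.1 * z.2 * W z)) (muT ℓ) :=
      H19.int_mul (H19.memLp_mul ch2 m1) m1
    have i2 : Integrable (fun z => h z.1 / 2 * ((δ * h z.1)⁻¹ * W z) * ((δ * h z.1)⁻¹ * W z))
        (muT ℓ) := H19.int_mul (H19.memLp_mul ch2 m2) m2
    rw [← integral_add i1 i2, Bil]
    congr 1
    ext z
    simp only [G1, G2, div_eq_mul_inv]
    ring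
  rw [e V W hV.mg hW.mg]
  refine (t1.add t2).congr fun n => ?_
  rw [e _ _ (hV.mf n) (hW.mf n)]

open H1 in
/-- continuity of `Inu (U^2)` and of `Inu |U|^(p+1)` -/
theorem inu_tendsto (hs : ContDiff ℝ ∞ h) {p : ℝ} (hp : 0 < p) (hp1 : p < 1)
    {Un : ℕ → ℝ × ℝ → ℝ} {U : ℝ × ℝ → ℝ} (hU : L2T (muT ℓ) Un U) :
    Tendsto (fun n => Inu ℓ h δ fun z => Un n z ^ 2) atTop (𝓝 (Inu ℓ h δ fun z => U z ^ 2)) ∧
    Tendsto (fun n => Inu ℓ h δ fun z => |Un n z| ^ (p + 1)) atTop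
      (𝓝 (Inu ℓ h δ fun z => |U z| ^ (p + 1))) := by
  have ch := hs.continuous
  have cw : Continuous fun z : ℝ × ℝ => h z.1 * om ℓ h δ z / 2 :=
    ((ch.comp continuous_fst).mul (H82.cont_om ch δ)).div_const 2
  obtain ⟨K, -, -, hK⟩ := bdd_muT cw ℓ
  constructor
  · have t := (hU.bdd_mul cw.aestronglyMeasurable K hK).inner hU
    have e : ∀ U : ℝ × ℝ → ℝ, Inu ℓ h δ (fun z => U z ^ 2)
        = ∫ z, h z.1 * om ℓ h δ z / 2 * U z * U z ∂muT ℓ := by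
      intro U
      unfold Inu
      congr 1
      ext z
      ring
    rw [e U]
    exact t.congr fun n => (e _).symm
  · exact hU.pow hp hp1 cw.aestronglyMeasurable K hK

theorem t32D : T32D := by
  intro p l0 l1 l3 R l2 hl2 hl23
  have hℓ := R.hℓ
  have hs := R.smooth
  have hpos := R.pos
  have hp := R.hp0
  have hp1 := R.hp1
  have hl3 : 0 < l3 := hl2.trans hl23
  obtain ⟨a, ha, b, hb, K, hK, hbd⟩ := H19.h_bounds hℓ hs hpos
  obtain ⟨κ, hκ, hT3⟩ := R.T3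
  set r := l2 / l3 with hr
  have hr0 : 0 < r := by positivity
  have hr1 : r < 1 := (div_lt_one hl3).2 hl23
  set η := (1 - r) / (2 * r) with hηdef
  have hη : 0 < η := by
    have : 0 < 1 - r := by linarith
    positivity
  have hrη : r * (1 + η) = (1 + r) / 2 := by
    rw [hηdef]
    field_simp
    ring
  set c := 4 * Real.pi / R.ℓ * b with hc
  -- the conditions on `δ`
  have w : Tendsto (fun δ : ℝ => δ) (𝓝[>] 0) (𝓝 0) := tendsto_id.mono_left nhdsWithin_le_nhds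
  have wx : Tendsto (fun δ : ℝ => c * δ) (𝓝[>] 0) (𝓝 0) := by
    simpa using w.const_mul c
  have we : Tendsto (fun δ : ℝ => Real.exp (c * δ)) (𝓝[>] 0) (𝓝 1) := by
    have := (Real.continuous_exp.tendsto 0).comp wx
    rw [Real.exp_zero] at this
    exact this
  have we' : Tendsto (fun δ : ℝ => Real.exp (-(c * δ))) (𝓝[>] 0) (𝓝 1) := by
    have h1 := wx.neg
    rw [neg_zero] at h1
    have := (Real.continuous_exp.tendsto 0).comp h1
    rw [Real.exp_zero] at this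
    exact this
  have we2 : Tendsto (fun δ : ℝ => r * ((1 + η) * Real.exp (2 * (c * δ)))) (𝓝[>] 0)
      (𝓝 (r * (1 + η))) := by
    have h1 := wx.const_mul 2
    have h2 := (Real.continuous_exp.tendsto (2 * 0)).comp h1
    have h3 := (h2.const_mul (1 + η)).const_mul r
    simpa using h3
  have w2 : Tendsto (fun δ : ℝ => r * ((1 + 1 / η) * (144 * K ^ 2 * b ^ 2) * δ ^ 2)
      + l2 * (8 * b ^ 2 * δ ^ 2)) (𝓝[>] 0) (𝓝 0) := by
    have h1 := w.pow 2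
    have h2 := (h1.const_mul ((1 + 1 / η) * (144 * K ^ 2 * b ^ 2))).const_mul r
    have h3 := (h1.const_mul (8 * b ^ 2)).const_mul l2
    simpa using h2.add h3
  have c1 := we.eventually_le_const (show (1:ℝ) < 2 by norm_num)
  have c2 := we.eventually_le_const (show (1:ℝ) < 1 + κ by linarith)
  have c3 := we'.eventually_const_le (show 1 - κ < (1:ℝ) by linarith)
  have c4 := we2.eventually_le_const (show r * (1 + η) < 1 by rw [hrη]; linarith)
  have c5 := w2.eventually_le_const (show (0:ℝ) < 1 by norm_num)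
  filter_upwards [c1, c2, c3, c4, c5, self_mem_nhdsWithin] with δ d1 d2 d3 d4 d5 d0 U V W hU
  have hδ : 0 < δ := d0
  obtain ⟨φ, hφ, tU, tV, tW⟩ := H1.exists_L2T hU
  have key : ∀ n, l2 * (Inu R.ℓ R.h δ (fun z => φ n z ^ 2)
      - (Inu R.ℓ R.h δ fun _ => 1) ^ ((p - 1) / (p + 1))
      * (Inu R.ℓ R.h δ fun z => |φ n z| ^ (p + 1)) ^ (2 / (p + 1)))
      ≤ Bil R.ℓ R.h δ (dS (φ n)) (dY (φ n)) (dS (φ n)) (dY (φ n)) := fun n =>
    t3_c1 R hl2 hl3 hT3 hb hη (fun s hs' => ⟨(hbd s hs').2.1, (hbd s hs').2.2⟩) hδ d1 d2 d3 d4 d5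
      (hφ n)
  obtain ⟨t1, t2⟩ := inu_tendsto (ℓ := R.ℓ) (δ := δ) hs hp hp1 tU
  have t3 := bil_tendsto hs hpos hδ tV tW
  have t4 := t2.rpow_const (p := 2 / (p + 1)) (Or.inr (by positivity))
  have t5 := (t1.sub (t4.const_mul ((Inu R.ℓ R.h δ fun _ => 1) ^ ((p - 1) / (p + 1))))).const_mul l2
  exact le_of_tendsto_of_tendsto' t5 t3 key

end Pool.Agent.Lib.MP_e46711_an.H21
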