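import Pool.Agent.Lib.MP_e46711_an.H21.WAvg

/-!
# MP_e46711_an, module B1c (part 3): the inequality for `C^1` functions
-/

set_option autoImplicit false

open Set Filter Topology MeasureTheory
open scoped ContDiff

namespace Pool.Agent.Lib.MP_e46711_an.H21

open Pool.Agent.Lib.MP_e46711_an

variable {ℓ : ℝ} {h : ℝ → ℝ} {δ : ℝ} {φ : ℝ × ℝ → ℝ}

/-- the two slice inequalities -/
theorem slice_ineq (hℓ : 0 < ℓ) (hs : ContDiff ℝ ∞ h) (hper : ∀ s, h (s + ℓ) = h s)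
    (hφ : C1per ℓ φ) (hδ : 0 < δ) {b K η s : ℝ} (hb : 0 < b) (hη : 0 < η)
    (hx : Real.exp (4 * Real.pi / ℓ * b * δ) ≤ 2)
    (h0 : 0 < h s) (h1 : h s ≤ b) (h2 : |deriv h s / h s| ≤ K) :
    h s * deriv (uw ℓ h δ φ) s ^ 2
      ≤ (1 + η) * Real.exp (2 * (4 * Real.pi / ℓ * b * δ))
          * (∫ y in (-1:ℝ)..1, G1 h (dS φ) (dY φ) (s, y) ^ 2 * (h s / 2))
        + (1 + 1 / η) * (144 * K ^ 2 * b ^ 2) * δ ^ 2
          * (∫ y in (-1:ℝ)..1, G2 h δ (dY φ) (s, y) ^ 2 * (h s / 2)) ∧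
    ∫ y in (-1:ℝ)..1, (φ (s, y) - uw ℓ h δ φ s) ^ 2 * (h s * om ℓ h δ (s, y) / 2)
      ≤ 8 * b ^ 2 * δ ^ 2 * (∫ y in (-1:ℝ)..1, G2 h δ (dY φ) (s, y) ^ 2 * (h s / 2)) := by
  set x := 4 * Real.pi / ℓ * b * δ with hxdef
  have hx0 : 0 ≤ x := by positivity
  have hx1 : x ≤ 1 := by linarith [Real.add_one_le_exp x]
  have cf : Continuous fun y => φ (s, y) := hφ.1.continuous.comp (by fun_prop)
  have cS : Continuous fun y => dS φ (s, y) := (H1.cont_dS hφ).comp (by fun_prop)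
  have cY : Continuous fun y => dY φ (s, y) := (H1.cont_dY hφ).comp (by fun_prop)
  have co : Continuous fun y => om ℓ h δ (s, y) := (H82.cont_om hs.continuous δ).comp (by fun_prop)
  have hB : ∀ y ∈ Icc (-1:ℝ) 1, ∀ y' ∈ Icc (-1:ℝ) 1,
      |φ (s, y) - φ (s, y')| ≤ ∫ y in (-1:ℝ)..1, |dY φ (s, y)| :=
    fun y hy y' hy' => H1.osc hφ s hy hy'
  have hwl : ∀ y ∈ Icc (-1:ℝ) 1, Real.exp (-x) ≤ om ℓ h δ (s, y) := fun y hy =>
    (om_bounds hℓ hδ.le h0.le h1 hy).1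
  have hwu : ∀ y ∈ Icc (-1:ℝ) 1, om ℓ h δ (s, y) ≤ Real.exp x := fun y hy =>
    (om_bounds hℓ hδ.le h0.le h1 hy).2
  have hc : |4 * Real.pi * δ / ℓ * h s| ≤ 1 := by
    have h3 : 0 ≤ 4 * Real.pi * δ / ℓ * h s := by positivity
    rw [abs_of_nonneg h3]
    refine le_trans ?_ hx1
    rw [hxdef]
    have : 4 * Real.pi / ℓ * b * δ = 4 * Real.pi * δ / ℓ * b := by ring
    rw [this]
    exact mul_le_mul_of_nonneg_left h1 (by positivity)
  have hD := wder cf cS cY co hx hwl hwu (uw_eq hs.continuous s) hB h2 hc hη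
    (deriv_uw hs hper hφ s h0)
  -- q in terms of G2
  set q := ∫ y in (-1:ℝ)..1, dY φ (s, y) ^ 2 with hq
  have hq0 : 0 ≤ q := intervalIntegral.integral_nonneg (by norm_num) fun y _ => sq_nonneg _
  have hg2 : ∫ y in (-1:ℝ)..1, G2 h δ (dY φ) (s, y) ^ 2 * (h s / 2)
      = q / (δ ^ 2 * h s ^ 2) * (h s / 2) := by
    have e : ∀ y, G2 h δ (dY φ) (s, y) ^ 2 * (h s / 2)
        = dY φ (s, y) ^ 2 * ((h s / 2) / (δ ^ 2 * h s ^ 2)) := by
      intro y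
      simp only [G2]
      field_simp
    simp_rw [e]
    rw [intervalIntegral.integral_mul_const, ← hq]
    ring
  have hg1 : ∫ y in (-1:ℝ)..1, G1 h (dS φ) (dY φ) (s, y) ^ 2 * (h s / 2)
      = (∫ y in (-1:ℝ)..1, (dS φ (s, y) - deriv h s / h s * y * dY φ (s, y)) ^ 2) * (h s / 2) := by
    rw [← intervalIntegral.integral_mul_const]
    rfl
  -- h q ≤ 2 b² δ² (…)
  have hq2 : h s * q ≤ 2 * b ^ 2 * δ ^ 2 * (q / (δ ^ 2 * h s ^ 2) * (h s / 2)) := by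
    have e : 2 * b ^ 2 * δ ^ 2 * (q / (δ ^ 2 * h s ^ 2) * (h s / 2)) = b ^ 2 / h s ^ 2 * (h s * q) := by
      field_simp
    rw [e]
    have h3 : 1 ≤ b ^ 2 / h s ^ 2 := by
      rw [le_div_iff₀ (by positivity), one_mul]
      exact pow_le_pow_left₀ h0.le h1 2
    have h4 : 0 ≤ h s * q := by positivity
    nlinarith
  constructor
  · rw [hg1, hg2]
    have h3 := mul_le_mul_of_nonneg_left hD h0.le
    have h4 := mul_le_mul_of_nonneg_left hq2
      (by positivity : 0 ≤ (1 + 1 / η) * (72 * K ^ 2))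
    calc h s * deriv (uw ℓ h δ φ) s ^ 2 ≤ _ := h3
      _ = (1 + η) * Real.exp (2 * x) * ((∫ y in (-1:ℝ)..1,
            (dS φ (s, y) - deriv h s / h s * y * dY φ (s, y)) ^ 2) * (h s / 2))
          + (1 + 1 / η) * (72 * K ^ 2) * (h s * q) := by ring
      _ ≤ _ := by linarith
  · rw [hg2]
    have hw0 : ∀ y ∈ Icc (-1:ℝ) 1, 0 ≤ om ℓ h δ (s, y) := fun y _ => (H82.om_pos δ _).le
    have hN : 0 < ∫ y in (-1:ℝ)..1, om ℓ h δ (s, y) := by
      have := ub_om_pos (ℓ := ℓ) hs.continuous δ s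
      unfold H1.ub at this
      linarith
    have hBq : (∫ y in (-1:ℝ)..1, |dY φ (s, y)|) ^ 2 ≤ 2 * q := by
      have := H1.ii_sq cY.abs
      simpa only [sq_abs] using this
    have h3 : ∫ y in (-1:ℝ)..1, (φ (s, y) - uw ℓ h δ φ s) ^ 2 * (h s * om ℓ h δ (s, y) / 2)
        ≤ ∫ _y in (-1:ℝ)..1, 2 * q * (h s * 2 / 2) := by
      apply intervalIntegral.integral_mono_on (by norm_num)
      · exact ii_of (((cf.sub continuous_const).pow 2).mul ((continuous_const.mul co).div_const 2))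
      · exact ii_of continuous_const
      · intro y hy
        have h4 := wosc cf co hw0 hN (uw_eq hs.continuous s) hB hy
        have h5 : (φ (s, y) - uw ℓ h δ φ s) ^ 2 ≤ 2 * q := by
          refine le_trans ?_ hBq
          rw [← sq_abs]
          exact pow_le_pow_left₀ (abs_nonneg _) h4 2
        have h6 : h s * om ℓ h δ (s, y) / 2 ≤ h s * 2 / 2 := by
          have := mul_le_mul_of_nonneg_left ((hwu y hy).trans hx) h0.le
          linarith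
        exact mul_le_mul h5 h6 (div_nonneg (mul_nonneg h0.le (hw0 y hy)) (by norm_num))
          (by positivity)
    rw [intervalIntegral.integral_const, smul_eq_mul] at h3
    calc _ ≤ _ := h3
      _ = 4 * (h s * q) := by ring
      _ ≤ 4 * (2 * b ^ 2 * δ ^ 2 * (q / (δ ^ 2 * h s ^ 2) * (h s / 2))) :=
          mul_le_mul_of_nonneg_left hq2 (by norm_num)
      _ = _ := by ring

/-- the modified weight -/
noncomputable def kw (ℓ : ℝ) (h : ℝ → ℝ) (δ s : ℝ) : ℝ := h s * H1.ub (om ℓ h δ) s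

theorem kw_cont (hc : Continuous h) (δ : ℝ) : Continuous (kw ℓ h δ) :=
  hc.mul (H1.cont_ub (H82.cont_om hc δ))

theorem kw_bounds (hℓ : 0 < ℓ) (hc : Continuous h) (hδ : 0 ≤ δ) {b s : ℝ} (h0 : 0 ≤ h s)
    (hb : h s ≤ b) : Real.exp (-(4 * Real.pi / ℓ * b * δ)) * h s ≤ kw ℓ h δ s ∧
      kw ℓ h δ s ≤ Real.exp (4 * Real.pi / ℓ * b * δ) * h s := by
  have co : Continuous fun y => om ℓ h δ (s, y) := (H82.cont_om hc δ).comp (by fun_prop)
  have h1 : ∫ _y in (-1:ℝ)..1, Real.exp (-(4 * Real.pi / ℓ * b * δ))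
      ≤ ∫ y in (-1:ℝ)..1, om ℓ h δ (s, y) := by
    apply intervalIntegral.integral_mono_on (by norm_num)
    · exact ii_of continuous_const
    · exact ii_of co
    · exact fun y hy => (om_bounds hℓ hδ h0 hb hy).1
  have h2 : ∫ y in (-1:ℝ)..1, om ℓ h δ (s, y)
      ≤ ∫ _y in (-1:ℝ)..1, Real.exp (4 * Real.pi / ℓ * b * δ) := by
    apply intervalIntegral.integral_mono_on (by norm_num)
    · exact ii_of co
    · exact ii_of continuous_const
    · exact fun y hy => (om_bounds hℓ hδ h0 hb hy).2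
  rw [intervalIntegral.integral_const, smul_eq_mul] at h1 h2
  unfold kw H1.ub
  constructor
  · rw [mul_comm]
    exact mul_le_mul_of_nonneg_left (by linarith) h0
  · rw [mul_comm (Real.exp _)]
    exact mul_le_mul_of_nonneg_left (by linarith) h0

/-- exact formulas for the integrals against `ν` -/
theorem inu_formulas (hℓ : 0 < ℓ) (hs : ContDiff ℝ ∞ h) (hper : ∀ s, h (s + ℓ) = h s)
    (hpos : ∀ s, 0 < h s) (hφ : C1per ℓ φ) {p : ℝ} (hp : 0 < p) :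
    (Inu ℓ h δ (fun _ => 1) = ∫ s in (0:ℝ)..ℓ, kw ℓ h δ s) ∧
    (Inu ℓ h δ (fun z => φ z ^ 2) = Sm (kw ℓ h δ) (uw ℓ h δ φ) 0 ℓ
      + ∫ s in (0:ℝ)..ℓ, ∫ y in (-1:ℝ)..1,
        (φ (s, y) - uw ℓ h δ φ s) ^ 2 * (h s * om ℓ h δ (s, y) / 2)) ∧
    Zm p (kw ℓ h δ) (uw ℓ h δ φ) 0 ℓ ≤ Inu ℓ h δ (fun z => |φ z| ^ (p + 1)) := by
  have cuw := (C1p_uw (δ := δ) hs hper hφ).1.continuous
  have ch := hs.continuous
  have cω := H82.cont_om (ℓ := ℓ) ch δ
  have ckw := kw_cont (ℓ := ℓ) ch δ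
  have cw2 : Continuous fun z : ℝ × ℝ => h z.1 * om ℓ h δ z / 2 :=
    ((ch.comp continuous_fst).mul cω).div_const 2
  have hmul : ∀ s, ∫ y in (-1:ℝ)..1, h s * om ℓ h δ (s, y) / 2 = kw ℓ h δ s := by
    intro s
    have e : ∀ y, h s * om ℓ h δ (s, y) / 2 = h s / 2 * om ℓ h δ (s, y) := fun y => by ring
    simp_rw [e]
    rw [intervalIntegral.integral_const_mul, kw, H1.ub]
    ring
  -- slice facts with the weight `h ω / 2`
  have csl : ∀ s, Continuous fun y => h s * om ℓ h δ (s, y) / 2 := fun s =>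
    cw2.comp (by fun_prop : Continuous fun y : ℝ => (s, y))
  have cf : ∀ s, Continuous fun y => φ (s, y) := fun s => hφ.1.continuous.comp (by fun_prop)
  have hm : ∀ s, ∫ y in (-1:ℝ)..1, φ (s, y) * (h s * om ℓ h δ (s, y) / 2)
      = uw ℓ h δ φ s * ∫ y in (-1:ℝ)..1, h s * om ℓ h δ (s, y) / 2 := by
    intro s
    have e1 : ∀ y, φ (s, y) * (h s * om ℓ h δ (s, y) / 2)
        = h s / 2 * (φ (s, y) * om ℓ h δ (s, y)) := fun y => by ring
    have e2 : ∀ y, h s * om ℓ h δ (s, y) / 2 = h s / 2 * om ℓ h δ (s, y) := fun y => by ring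
    simp_rw [e1, e2]
    rw [intervalIntegral.integral_const_mul, intervalIntegral.integral_const_mul,
      uw_eq (φ := φ) ch s]
    ring
  refine ⟨?_, ?_, ?_⟩
  · unfold Inu
    have e := H1.fub' hℓ.le (f := fun z : ℝ × ℝ => (1:ℝ) * (h z.1 * om ℓ h δ z / 2))
      (continuous_const.mul cw2)
    rw [e]
    congr 1
    ext s
    simp only [one_mul]
    exact hmul s
  · have e := H1.fub' hℓ.le (f := fun z : ℝ × ℝ => φ z ^ 2 * (h z.1 * om ℓ h δ z / 2))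
      ((hφ.1.continuous.pow 2).mul cw2)
    unfold Inu
    rw [e]
    have c3 : Continuous fun z : ℝ × ℝ =>
        (φ z - uw ℓ h δ φ z.1) ^ 2 * (h z.1 * om ℓ h δ z / 2) :=
      ((hφ.1.continuous.sub (cuw.comp continuous_fst)).pow 2).mul cw2
    have c4 : Continuous fun s => kw ℓ h δ s * uw ℓ h δ φ s ^ 2 := ckw.mul (cuw.pow 2)
    rw [Sm, ← intervalIntegral.integral_add (c4.intervalIntegrable _ _)
      ((H1.cont_ii c3).intervalIntegrable _ _)]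
    congr 1
    ext s
    have h1 := wvar (cf s) (csl s) (hm s)
    rw [hmul s] at h1
    simp only
    rw [h1]
    ring
  · have cp : Continuous fun z : ℝ × ℝ => |φ z| ^ (p + 1) :=
      hφ.1.continuous.abs.rpow_const fun _ => Or.inr (by linarith)
    have e := H1.fub' hℓ.le (f := fun z : ℝ × ℝ => |φ z| ^ (p + 1) * (h z.1 * om ℓ h δ z / 2))
      (cp.mul cw2)
    unfold Inu
    rw [e, Zm]
    have c5 : Continuous fun s => kw ℓ h δ s * |uw ℓ h δ φ s| ^ (p + 1) :=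
      ckw.mul (cuw.abs.rpow_const fun _ => Or.inr (by linarith))
    apply intervalIntegral.integral_mono_on hℓ.le
    · exact c5.intervalIntegrable _ _
    · exact (H1.cont_ii (cp.mul cw2)).intervalIntegrable _ _
    · intro s _
      have h1 := wjensen hp (cf s) (csl s) (fun y _ =>
        div_nonneg (mul_nonneg (hpos s).le (H82.om_pos δ _).le) (by norm_num)) (hm s)
      rw [hmul s] at h1
      simp only
      linarith

/-- the form on `C^1` functions as an iterated integral -/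
theorem bil_formula (hℓ : 0 < ℓ) (hs : ContDiff ℝ ∞ h) (hpos : ∀ s, 0 < h s) (hδ : 0 < δ)
    (hφ : C1per ℓ φ) :
    Bil ℓ h δ (dS φ) (dY φ) (dS φ) (dY φ)
      = (∫ s in (0:ℝ)..ℓ, ∫ y in (-1:ℝ)..1, G1 h (dS φ) (dY φ) (s, y) ^ 2 * (h s / 2))
        + ∫ s in (0:ℝ)..ℓ, ∫ y in (-1:ℝ)..1, G2 h δ (dY φ) (s, y) ^ 2 * (h s / 2) := by
  have ch := hs.continuous
  have cS := H1.cont_dS hφ
  have cY := H1.cont_dY hφ
  have c1 : Continuous (G1 h (dS φ) (dY φ)) := cS.sub ((H19.mult_cont hs hpos).mul cY)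
  have c2 : Continuous (G2 h δ (dY φ)) :=
    cY.div (continuous_const.mul (ch.comp continuous_fst)) fun z => (mul_pos hδ (hpos _)).ne'
  have ch2 : Continuous fun z : ℝ × ℝ => h z.1 / 2 := (ch.comp continuous_fst).div_const 2
  have c3 : Continuous fun z : ℝ × ℝ => G1 h (dS φ) (dY φ) z ^ 2 * (h z.1 / 2) :=
    (c1.pow 2).mul ch2
  have c4 : Continuous fun z : ℝ × ℝ => G2 h δ (dY φ) z ^ 2 * (h z.1 / 2) :=
    (c2.pow 2).mul ch2
  have e1 := H1.fub' hℓ.le c3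
  have e2 := H1.fub' hℓ.le c4
  simp only at e1 e2
  rw [← e1, ← e2, ← integral_add (H1.cont_int c3) (H1.cont_int c4), Bil]
  congr 1
  ext z
  ring

theorem t3_c1 {p l0 l1 l3 : ℝ} (R : Ring1D p l0 l1 l3) {l2 : ℝ} (hl2 : 0 < l2) (hl3 : 0 < l3)
    {κ : ℝ}
    (hT3 : ∀ k : ℝ → ℝ, Continuous k →
      (∀ s ∈ Icc 0 R.ℓ, k s ∈ Icc ((1 - κ) * R.h s) ((1 + κ) * R.h s)) → ∀ u, C1p R.ℓ u →
      l3 * (Sm k u 0 R.ℓ - (∫ s in (0:ℝ)..R.ℓ, k s) ^ ((p - 1) / (p + 1))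
          * Zm p k u 0 R.ℓ ^ (2 / (p + 1))) ≤ En R.h u 0 R.ℓ)
    {b K η : ℝ} (hb : 0 < b) (hη : 0 < η)
    (hbd : ∀ s ∈ Icc 0 R.ℓ, R.h s ≤ b ∧ |deriv R.h s / R.h s| ≤ K)
    (hδ : 0 < δ) (hx : Real.exp (4 * Real.pi / R.ℓ * b * δ) ≤ 2)
    (hκ1 : Real.exp (4 * Real.pi / R.ℓ * b * δ) ≤ 1 + κ)
    (hκ2 : 1 - κ ≤ Real.exp (-(4 * Real.pi / R.ℓ * b * δ)))
    (hδ1 : l2 / l3 * ((1 + η) * Real.exp (2 * (4 * Real.pi / R.ℓ * b * δ))) ≤ 1)
    (hδ2 : l2 / l3 * ((1 + 1 / η) * (144 * K ^ 2 * b ^ 2) * δ ^ 2) + l2 * (8 * b ^ 2 * δ ^ 2) ≤ 1)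
    (hφ : C1per R.ℓ φ) :
    l2 * (Inu R.ℓ R.h δ (fun z => φ z ^ 2)
      - (Inu R.ℓ R.h δ fun _ => 1) ^ ((p - 1) / (p + 1))
      * (Inu R.ℓ R.h δ fun z => |φ z| ^ (p + 1)) ^ (2 / (p + 1)))
      ≤ Bil R.ℓ R.h δ (dS φ) (dY φ) (dS φ) (dY φ) := by
  have hℓ := R.hℓ
  have hp := R.hp0
  have hs := R.smooth
  have hper := R.per
  have hpos := R.pos
  have ch := hs.continuous
  obtain ⟨f1, f2, f3⟩ := inu_formulas (δ := δ) hℓ hs hper hpos hφ hp
  have hT := hT3 (kw R.ℓ R.h δ) (kw_cont ch δ) (fun s hs' => by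
    obtain ⟨g1, g2⟩ := kw_bounds (δ := δ) hℓ ch hδ.le (hpos s).le (hbd s hs').1
    exact ⟨(mul_le_mul_of_nonneg_right hκ2 (hpos s).le).trans g1,
      g2.trans (mul_le_mul_of_nonneg_right hκ1 (hpos s).le)⟩) (uw R.ℓ R.h δ φ) (C1p_uw hs hper hφ)
  rw [f1, f2, bil_formula hℓ hs hpos hδ hφ]
  set E1 := ∫ s in (0:ℝ)..R.ℓ, ∫ y in (-1:ℝ)..1, G1 R.h (dS φ) (dY φ) (s, y) ^ 2 * (R.h s / 2)
    with hE1
  set E2 := ∫ s in (0:ℝ)..R.ℓ, ∫ y in (-1:ℝ)..1, G2 R.h δ (dY φ) (s, y) ^ 2 * (R.h s / 2) with hE2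
  set Rm := ∫ s in (0:ℝ)..R.ℓ, ∫ y in (-1:ℝ)..1,
        (φ (s, y) - uw R.ℓ R.h δ φ s) ^ 2 * (R.h s * om R.ℓ R.h δ (s, y) / 2) with hRm
  set A := ∫ s in (0:ℝ)..R.ℓ, kw R.ℓ R.h δ s with hA
  set Z := Inu R.ℓ R.h δ fun z => |φ z| ^ (p + 1) with hZ
  set Z1 := Zm p (kw R.ℓ R.h δ) (uw R.ℓ R.h δ φ) 0 R.ℓ with hZ1
  set S := Sm (kw R.ℓ R.h δ) (uw R.ℓ R.h δ φ) 0 R.ℓ with hS
  have cuw := (C1p_uw (δ := δ) hs hper hφ).1.continuous
  have cduw : Continuous (deriv (uw R.ℓ R.h δ φ)) :=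
    (C1p_uw (δ := δ) hs hper hφ).1.continuous_deriv le_rfl
  have cω := H82.cont_om (ℓ := R.ℓ) ch δ
  have kw0 : ∀ s, 0 ≤ kw R.ℓ R.h δ s := fun s => mul_nonneg (hpos s).le (ub_om_pos ch δ s).le
  have hA0 : 0 ≤ A := intervalIntegral.integral_nonneg hℓ.le fun s _ => kw0 s
  have hZ10 : 0 ≤ Z1 := intervalIntegral.integral_nonneg hℓ.le fun s _ =>
    mul_nonneg (kw0 s) (Real.rpow_nonneg (abs_nonneg _) _)
  have cS := H1.cont_dS hφ
  have cY := H1.cont_dY hφ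
  have c1 : Continuous (G1 R.h (dS φ) (dY φ)) := cS.sub ((H19.mult_cont hs hpos).mul cY)
  have c2 : Continuous (G2 R.h δ (dY φ)) :=
    cY.div (continuous_const.mul (ch.comp continuous_fst)) fun z => (mul_pos hδ (hpos _)).ne'
  have ch2 : Continuous fun z : ℝ × ℝ => R.h z.1 / 2 := (ch.comp continuous_fst).div_const 2
  have c3 : Continuous fun z : ℝ × ℝ => G1 R.h (dS φ) (dY φ) z ^ 2 * (R.h z.1 / 2) :=
    (c1.pow 2).mul ch2
  have c4 : Continuous fun z : ℝ × ℝ => G2 R.h δ (dY φ) z ^ 2 * (R.h z.1 / 2) :=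
    (c2.pow 2).mul ch2
  have c5 : Continuous fun z : ℝ × ℝ =>
      (φ z - uw R.ℓ R.h δ φ z.1) ^ 2 * (R.h z.1 * om R.ℓ R.h δ z / 2) :=
    ((hφ.1.continuous.sub (cuw.comp continuous_fst)).pow 2).mul
      (((ch.comp continuous_fst).mul cω).div_const 2)
  have i3 := H1.cont_ii c3
  have i4 := H1.cont_ii c4
  have i5 := H1.cont_ii c5
  simp only at i3 i4 i5
  have hE20 : 0 ≤ E2 := intervalIntegral.integral_nonneg hℓ.le fun s _ =>
    intervalIntegral.integral_nonneg (by norm_num) fun y _ =>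
      mul_nonneg (sq_nonneg _) (by have := hpos s; positivity)
  have hE10 : 0 ≤ E1 := intervalIntegral.integral_nonneg hℓ.le fun s _ =>
    intervalIntegral.integral_nonneg (by norm_num) fun y _ =>
      mul_nonneg (sq_nonneg _) (by have := hpos s; positivity)
  -- the energy of the average
  have hEn : En R.h (uw R.ℓ R.h δ φ) 0 R.ℓ
      ≤ (1 + η) * Real.exp (2 * (4 * Real.pi / R.ℓ * b * δ)) * E1
        + (1 + 1 / η) * (144 * K ^ 2 * b ^ 2) * δ ^ 2 * E2 := by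
    have i6 : IntervalIntegrable (fun s => (1 + η) * Real.exp (2 * (4 * Real.pi / R.ℓ * b * δ))
        * (∫ y in (-1:ℝ)..1, G1 R.h (dS φ) (dY φ) (s, y) ^ 2 * (R.h s / 2))) volume 0 R.ℓ :=
      (continuous_const.mul i3).intervalIntegrable _ _
    have i7 : IntervalIntegrable (fun s => (1 + 1 / η) * (144 * K ^ 2 * b ^ 2) * δ ^ 2
        * (∫ y in (-1:ℝ)..1, G2 R.h δ (dY φ) (s, y) ^ 2 * (R.h s / 2))) volume 0 R.ℓ :=
      (continuous_const.mul i4).intervalIntegrable _ _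
    rw [hE1, hE2, ← intervalIntegral.integral_const_mul, ← intervalIntegral.integral_const_mul,
      ← intervalIntegral.integral_add i6 i7, En]
    apply intervalIntegral.integral_mono_on hℓ.le
    · exact (ch.mul (cduw.pow 2)).intervalIntegrable _ _
    · exact i6.add i7
    · intro s hs'
      exact (slice_ineq hℓ hs hper hφ hδ hb hη hx (hpos s) (hbd s hs').1 (hbd s hs').2).1
  have hRm2 : Rm ≤ 8 * b ^ 2 * δ ^ 2 * E2 := by
    rw [hE2, ← intervalIntegral.integral_const_mul]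
    apply intervalIntegral.integral_mono_on hℓ.le
    · exact i5.intervalIntegrable _ _
    · exact (continuous_const.mul i4).intervalIntegrable _ _
    · intro s hs'
      exact (slice_ineq hℓ hs hper hφ hδ hb hη hx (hpos s) (hbd s hs').1 (hbd s hs').2).2
  -- comparison
  have hZZ : Z1 ^ (2 / (p + 1)) ≤ Z ^ (2 / (p + 1)) :=
    Real.rpow_le_rpow hZ10 f3 (by positivity)
  have hAA : 0 ≤ A ^ ((p - 1) / (p + 1)) := Real.rpow_nonneg hA0 _
  have h1 := mul_le_mul_of_nonneg_left hZZ hAA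
  have h2 : S - A ^ ((p - 1) / (p + 1)) * Z1 ^ (2 / (p + 1))
      ≤ En R.h (uw R.ℓ R.h δ φ) 0 R.ℓ / l3 := by
    rw [le_div_iff₀ hl3, mul_comm]
    exact hT
  have h3 : l2 * (S + Rm - A ^ ((p - 1) / (p + 1)) * Z ^ (2 / (p + 1)))
      ≤ l2 * (En R.h (uw R.ℓ R.h δ φ) 0 R.ℓ / l3 + 8 * b ^ 2 * δ ^ 2 * E2) :=
    mul_le_mul_of_nonneg_left (by linarith) hl2.le
  refine h3.trans ?_
  have h4 : l2 * (En R.h (uw R.ℓ R.h δ φ) 0 R.ℓ / l3)
      ≤ l2 / l3 * ((1 + η) * Real.exp (2 * (4 * Real.pi / R.ℓ * b * δ)) * E1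
        + (1 + 1 / η) * (144 * K ^ 2 * b ^ 2) * δ ^ 2 * E2) := by
    have e : l2 * (En R.h (uw R.ℓ R.h δ φ) 0 R.ℓ / l3)
      = l2 / l3 * En R.h (uw R.ℓ R.h δ φ) 0 R.ℓ := by ring
    rw [e]
    exact mul_le_mul_of_nonneg_left hEn (by positivity)
  have h5 := mul_le_mul_of_nonneg_right hδ1 hE10
  have h6 := mul_le_mul_of_nonneg_right hδ2 hE20
  nlinarith

end Pool.Agent.Lib.MP_e46711_an.H21
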