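import Pool.Agent.Lib.MP_e46711_an.DefsB

/-!
# Tools: the measure `muT`, functions of `s`, integrability
-/

open Set Filter Topology MeasureTheory
open scoped ContDiff

namespace Pool.Agent.Lib.MP_e46711_an.H21

lemma muT_eq (ℓ : ℝ) :
    muT ℓ = (volume : Measure (ℝ × ℝ)).restrict (Ioc 0 ℓ ×ˢ Ioo (-1 : ℝ) 1) := by
  rw [muT, Measure.prod_restrict]
  rfl

lemma ae_mem (ℓ : ℝ) : ∀ᵐ z ∂muT ℓ, z.1 ∈ Ioc 0 ℓ ∧ z.2 ∈ Ioo (-1 : ℝ) 1 := by
  rw [muT_eq]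
  filter_upwards [ae_restrict_mem (measurableSet_Ioc.prod measurableSet_Ioo)] with z hz
  exact hz

lemma muT_lt_top (ℓ : ℝ) : muT ℓ univ < ⊤ := by
  rw [muT_eq, Measure.restrict_apply_univ, Measure.volume_eq_prod, Measure.prod_prod]
  exact ENNReal.mul_lt_top (by simp) (by simp)

instance (ℓ : ℝ) : IsFiniteMeasure (muT ℓ) := ⟨muT_lt_top ℓ⟩

lemma bdd_cont (ℓ : ℝ) {c : ℝ × ℝ → ℝ} (hc : Continuous c) :
    ∃ M, 0 ≤ M ∧ ∀ᵐ z ∂muT ℓ, |c z| ≤ M := by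
  have hK : IsCompact (Icc 0 ℓ ×ˢ Icc (-1 : ℝ) 1) := isCompact_Icc.prod isCompact_Icc
  obtain ⟨M, hM⟩ := hK.exists_bound_of_continuousOn hc.continuousOn
  refine ⟨max M 0, le_max_right _ _, ?_⟩
  filter_upwards [ae_mem ℓ] with z hz
  refine (hM z ⟨⟨hz.1.1.le, hz.1.2⟩, ⟨hz.2.1.le, hz.2.2.le⟩⟩).trans (le_max_left _ _)

lemma memLp_cont (ℓ : ℝ) {c : ℝ × ℝ → ℝ} (hc : Continuous c) : MemLp c 2 (muT ℓ) := by
  obtain ⟨M, -, hM⟩ := bdd_cont ℓ hc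
  exact MemLp.of_bound hc.aestronglyMeasurable M hM

lemma memLp_mulc {ℓ : ℝ} {c f : ℝ × ℝ → ℝ} (hc : Continuous c) (hf : MemLp f 2 (muT ℓ)) :
    MemLp (fun z => c z * f z) 2 (muT ℓ) := by
  obtain ⟨M, -, hM⟩ := bdd_cont ℓ hc
  refine hf.of_le_mul (c := M) (hc.aestronglyMeasurable.mul hf.aestronglyMeasurable) ?_
  filter_upwards [hM] with z hz
  rw [norm_mul]
  exact mul_le_mul_of_nonneg_right hz (norm_nonneg _)

lemma int_mul {ℓ : ℝ} {f g : ℝ × ℝ → ℝ} (hf : MemLp f 2 (muT ℓ)) (hg : MemLp g 2 (muT ℓ)) :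
    Integrable (fun z => f z * g z) (muT ℓ) := hf.integrable_mul hg

lemma int_mulc {ℓ : ℝ} {c f g : ℝ × ℝ → ℝ} (hc : Continuous c) (hf : MemLp f 2 (muT ℓ))
    (hg : MemLp g 2 (muT ℓ)) : Integrable (fun z => c z * (f z * g z)) (muT ℓ) := by
  have := (memLp_mulc hc hf).integrable_mul hg
  refine this.congr (ae_of_all _ fun z => ?_)
  simp [mul_assoc]

lemma int_of_memLp {ℓ : ℝ} {f : ℝ × ℝ → ℝ} (hf : MemLp f 2 (muT ℓ)) : Integrable f (muT ℓ) :=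
  hf.integrable (by norm_num)

lemma int_sq {ℓ : ℝ} {f : ℝ × ℝ → ℝ} (hf : MemLp f 2 (muT ℓ)) :
    Integrable (fun z => f z ^ 2) (muT ℓ) := by
  simpa [sq] using int_mul hf hf

/-! ### functions of `s` -/

lemma hasFDeriv_fst {f : ℝ → ℝ} {f' : ℝ} {z : ℝ × ℝ} (hf : HasDerivAt f f' z.1) :
    HasFDerivAt (fun z : ℝ × ℝ => f z.1)
      ((ContinuousLinearMap.smulRight (1 : ℝ →L[ℝ] ℝ) f').comp (ContinuousLinearMap.fst ℝ ℝ ℝ)) z :=
  HasFDerivAt.comp z hf.hasFDerivAt hasFDerivAt_fst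

lemma dS_fst {f : ℝ → ℝ} {f' : ℝ} {z : ℝ × ℝ} (hf : HasDerivAt f f' z.1) :
    dS (fun z : ℝ × ℝ => f z.1) z = f' := by
  rw [dS, (hasFDeriv_fst hf).fderiv]
  simp

lemma dY_fst {f : ℝ → ℝ} {f' : ℝ} {z : ℝ × ℝ} (hf : HasDerivAt f f' z.1) :
    dY (fun z : ℝ × ℝ => f z.1) z = 0 := by
  rw [dY, (hasFDeriv_fst hf).fderiv]
  simp

lemma c1per_fst {ℓ : ℝ} {f : ℝ → ℝ} (hf : ContDiff ℝ 1 f) (hp : ∀ s, f (s + ℓ) = f s) :
    C1per ℓ (fun z : ℝ × ℝ => f z.1) :=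
  ⟨hf.comp contDiff_fst, fun s _ => hp s⟩

lemma cont_dS {φ : ℝ × ℝ → ℝ} (hφ : ContDiff ℝ 1 φ) : Continuous (dS φ) :=
  (hφ.continuous_fderiv (by norm_num)).clm_apply continuous_const

lemma cont_dY {φ : ℝ × ℝ → ℝ} (hφ : ContDiff ℝ 1 φ) : Continuous (dY φ) :=
  (hφ.continuous_fderiv (by norm_num)).clm_apply continuous_const

/-- the integral of `∂_s φ` vanishes -/
lemma int_dS {ℓ : ℝ} (hℓ : 0 < ℓ) {φ : ℝ × ℝ → ℝ} (hφ : C1per ℓ φ) :
    ∫ z, dS φ z ∂muT ℓ = 0 := by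
  have hi : Integrable (dS φ) (muT ℓ) := int_of_memLp (memLp_cont ℓ (cont_dS hφ.1))
  rw [muT] at hi ⊢
  rw [integral_prod_symm _ hi]
  have : ∀ y, ∫ x in Ioc 0 ℓ, dS φ (x, y) = 0 := by
    intro y
    rw [← intervalIntegral.integral_of_le hℓ.le]
    have hd : ∀ x, HasDerivAt (fun x => φ (x, y)) (dS φ (x, y)) x := by
      intro x
      have h1 : HasFDerivAt φ (fderiv ℝ φ (x, y)) (x, y) :=
        (hφ.1.differentiable (by norm_num) (x, y)).hasFDerivAt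
      have h2 : HasDerivAt (fun x : ℝ => ((x, y) : ℝ × ℝ)) (1, 0) x :=
        (hasDerivAt_id x).prodMk (hasDerivAt_const x y)
      exact h1.comp_hasDerivAt x h2
    rw [intervalIntegral.integral_eq_sub_of_hasDerivAt (fun x _ => hd x)]
    · have := hφ.2 0 y
      simp only [zero_add] at this
      rw [this, sub_self]
    · exact ((cont_dS hφ.1).comp (continuous_id.prodMk continuous_const)).intervalIntegrable _ _
  simp [this]

/-- bounded by `L²` -/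
lemma abs_int_le {ℓ : ℝ} {g : ℝ × ℝ → ℝ} (hg : MemLp g 2 (muT ℓ)) {ε : ℝ} (hε : 0 < ε) :
    |∫ z, g z ∂muT ℓ| ≤ ε * (muT ℓ).real univ + (∫ z, g z ^ 2 ∂muT ℓ) / ε := by
  have h1 : ∀ x : ℝ, |x| ≤ ε + x ^ 2 / ε := by
    intro x
    rw [← sub_nonneg]
    have : ε + x ^ 2 / ε - |x| = ((ε - |x|) ^ 2 + ε * |x|) / ε := by
      field_simp
      rw [← sq_abs x]
      ring
    rw [this]
    positivity
  calc |∫ z, g z ∂muT ℓ| ≤ ∫ z, |g z| ∂muT ℓ := abs_integral_le_integral_abs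
    _ ≤ ∫ z, (ε + g z ^ 2 / ε) ∂muT ℓ := by
        refine integral_mono (int_of_memLp hg).abs ?_ fun z => h1 _
        exact (integrable_const _).add ((int_sq hg).div_const _)
    _ = ε * (muT ℓ).real univ + (∫ z, g z ^ 2 ∂muT ℓ) / ε := by
        rw [integral_add (integrable_const _) ((int_sq hg).div_const _), integral_const,
          integral_div, smul_eq_mul, mul_comm]

/-- the integral of the `s`-derivative of an `H^1` function vanishes -/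
lemma int_V {ℓ : ℝ} (hℓ : 0 < ℓ) {U V W : ℝ × ℝ → ℝ} (h : H1T ℓ U V W) :
    ∫ z, V z ∂muT ℓ = 0 := by
  obtain ⟨φ, hφ, hlim⟩ := h.approx
  set a : ℕ → ℝ := fun n => ∫ z, ((φ n z - U z) ^ 2 + (dS (φ n) z - V z) ^ 2
      + (dY (φ n) z - W z) ^ 2) ∂muT ℓ with ha
  have hm : ∀ n, MemLp (fun z => dS (φ n) z - V z) 2 (muT ℓ) := fun n =>
    (memLp_cont ℓ (cont_dS (hφ n).1)).sub h.mV
  have hm1 : ∀ n, MemLp (fun z => φ n z - U z) 2 (muT ℓ) := fun n =>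
    (memLp_cont ℓ (hφ n).1.continuous).sub h.mU
  have hm2 : ∀ n, MemLp (fun z => dY (φ n) z - W z) 2 (muT ℓ) := fun n =>
    (memLp_cont ℓ (cont_dY (hφ n).1)).sub h.mW
  have h1 : ∀ n, ∫ z, (dS (φ n) z - V z) ^ 2 ∂muT ℓ ≤ a n := by
    intro n
    refine integral_mono (int_sq (hm n)) (((int_sq (hm1 n)).add (int_sq (hm n))).add
      (int_sq (hm2 n))) fun z => ?_
    have := sq_nonneg (φ n z - U z)
    have := sq_nonneg (dY (φ n) z - W z)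
    linarith
  have h2 : ∀ ε > 0, ∀ n, |∫ z, V z ∂muT ℓ| ≤ ε * (muT ℓ).real univ + a n / ε := by
    intro ε hε n
    have h3 := abs_int_le (hm n) hε
    rw [integral_sub (int_of_memLp (memLp_cont ℓ (cont_dS (hφ n).1))) (int_of_memLp h.mV),
      int_dS hℓ (hφ n), zero_sub, abs_neg] at h3
    refine h3.trans ?_
    have := h1 n
    gcongr
  have h3 : ∀ ε > 0, |∫ z, V z ∂muT ℓ| ≤ ε * (muT ℓ).real univ := by
    intro ε hε
    have h4 : Tendsto (fun n => ε * (muT ℓ).real univ + a n / ε) atTop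
        (𝓝 (ε * (muT ℓ).real univ + 0 / ε)) := (hlim.div_const ε).const_add _
    have := ge_of_tendsto' h4 (h2 ε hε)
    simpa using this
  have h4 : |∫ z, V z ∂muT ℓ| ≤ 0 := by
    refine le_of_forall_pos_le_add fun ε hε => ?_
    rw [zero_add]
    have h5 := h3 (ε / ((muT ℓ).real univ + 1)) (by positivity)
    refine h5.trans ?_
    rw [div_mul_eq_mul_div, div_le_iff₀ (by positivity)]
    have : 0 ≤ (muT ℓ).real univ := measureReal_nonneg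
    nlinarith
  exact abs_eq_zero.1 (le_antisymm h4 (abs_nonneg _))

end Pool.Agent.Lib.MP_e46711_an.H21
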