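import Pool.Agent.Lib.MP_e46711_an.H21.WSlice
import Pool.Agent.Lib.MP_e46711_an.H19.Form
import Pool.Agent.Lib.MP_e46711_an.H82.ToolB

/-!
# MP_e46711_an, module B1c (part 2): the weighted slice average of a `C^1` function
-/

set_option autoImplicit false

open Set Filter Topology MeasureTheory
open scoped ContDiff

namespace Pool.Agent.Lib.MP_e46711_an.H21

open Pool.Agent.Lib.MP_e46711_an

variable {ℓ : ℝ} {h : ℝ → ℝ} {δ : ℝ} {φ : ℝ × ℝ → ℝ}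

theorem C1per_om (hs : ContDiff ℝ ∞ h) (hper : ∀ s, h (s + ℓ) = h s) (δ : ℝ) :
    C1per ℓ (om ℓ h δ) := by
  refine ⟨?_, fun s y => ?_⟩
  · unfold om
    have h1 : ContDiff ℝ 1 h := hs.of_le (by exact_mod_cast le_top)
    have h2 : ContDiff ℝ 1 fun z : ℝ × ℝ => h z.1 := h1.comp contDiff_fst
    have h3 : ContDiff ℝ 1 fun z : ℝ × ℝ => 4 * Real.pi * δ * h z.1 * z.2 / ℓ :=
      ((contDiff_const.mul h2).mul contDiff_snd).div_const ℓ
    exact h3.exp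
  · simp only [om, hper]

theorem dS_om (hs : ContDiff ℝ ∞ h) (hper : ∀ s, h (s + ℓ) = h s) (δ s y : ℝ) :
    dS (om ℓ h δ) (s, y) = 4 * Real.pi * δ / ℓ * deriv h s * y * om ℓ h δ (s, y) := by
  have h1 := H1.hasDeriv_S (C1per_om hs hper δ) s y
  have h2 : HasDerivAt h (deriv h s) s := (hs.differentiable (by simp) s).hasDerivAt
  have h3 : HasDerivAt (fun s => om ℓ h δ (s, y))
      (Real.exp (4 * Real.pi * δ * h s * y / ℓ) * (4 * Real.pi * δ * deriv h s * y / ℓ)) s :=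
    (((h2.const_mul (4 * Real.pi * δ)).mul_const y).div_const ℓ).exp
  rw [h1.unique h3]
  simp only [om]
  ring

theorem C1per_mul {ψ : ℝ × ℝ → ℝ} (h1 : C1per ℓ φ) (h2 : C1per ℓ ψ) :
    C1per ℓ (fun z => φ z * ψ z) :=
  ⟨h1.1.mul h2.1, fun s y => by simp only [h1.2, h2.2]⟩

theorem dS_mul {ψ : ℝ × ℝ → ℝ} (h1 : C1per ℓ φ) (h2 : C1per ℓ ψ) (s y : ℝ) :
    dS (fun z => φ z * ψ z) (s, y) = dS φ (s, y) * ψ (s, y) + φ (s, y) * dS ψ (s, y) := by
  have h3 := H1.hasDeriv_S (C1per_mul h1 h2) s y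
  have h4 := (H1.hasDeriv_S h1 s y).mul (H1.hasDeriv_S h2 s y)
  exact h3.unique h4

theorem ub_om_pos (hc : Continuous h) (δ s : ℝ) : 0 < H1.ub (om ℓ h δ) s := by
  unfold H1.ub
  have hco : Continuous fun y => om ℓ h δ (s, y) := (H82.cont_om hc δ).comp (by fun_prop)
  have h1 : 0 < ∫ y in (-1:ℝ)..1, om ℓ h δ (s, y) :=
    intervalIntegral.intervalIntegral_pos_of_pos (hco.intervalIntegrable _ _)
      (fun y => H82.om_pos δ (s, y)) (by norm_num)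
  linarith

/-- weighted slice average -/
noncomputable def uw (ℓ : ℝ) (h : ℝ → ℝ) (δ : ℝ) (φ : ℝ × ℝ → ℝ) (s : ℝ) : ℝ :=
  H1.ub (fun z => φ z * om ℓ h δ z) s / H1.ub (om ℓ h δ) s

theorem uw_eq (hc : Continuous h) (s : ℝ) :
    ∫ y in (-1:ℝ)..1, φ (s, y) * om ℓ h δ (s, y)
      = uw ℓ h δ φ s * ∫ y in (-1:ℝ)..1, om ℓ h δ (s, y) := by
  have h1 := ub_om_pos (ℓ := ℓ) hc δ s
  have h2 : H1.ub (om ℓ h δ) s ≠ 0 := h1.ne'
  unfold uw
  unfold H1.ub at h2 ⊢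
  have h3 : (∫ y in (-1:ℝ)..1, om ℓ h δ (s, y)) ≠ 0 := fun h => h2 (by rw [h]; simp)
  field_simp

theorem C1p_uw (hs : ContDiff ℝ ∞ h) (hper : ∀ s, h (s + ℓ) = h s) (hφ : C1per ℓ φ) :
    C1p ℓ (uw ℓ h δ φ) := by
  have h1 := H1.C1p_ub (C1per_om hs hper δ)
  have h2 := H1.C1p_ub (C1per_mul hφ (C1per_om hs hper δ))
  refine ⟨h2.1.div h1.1 fun s => (ub_om_pos hs.continuous δ s).ne', fun s => ?_⟩
  simp only [uw]
  rw [h1.2, h2.2]

theorem deriv_uw (hs : ContDiff ℝ ∞ h) (hper : ∀ s, h (s + ℓ) = h s) (hφ : C1per ℓ φ) (s : ℝ)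
    (hpos : 0 < h s) :
    deriv (uw ℓ h δ φ) s * (∫ y in (-1:ℝ)..1, om ℓ h δ (s, y))
      = ∫ y in (-1:ℝ)..1, (dS φ (s, y) * om ℓ h δ (s, y) + (φ (s, y) - uw ℓ h δ φ s)
        * (4 * Real.pi * δ / ℓ * h s * (deriv h s / h s) * y * om ℓ h δ (s, y))) := by
  have h1 := H1.hasDeriv_ub (C1per_om hs hper δ) s
  have h2 := H1.hasDeriv_ub (C1per_mul hφ (C1per_om hs hper δ)) s
  have hN := ub_om_pos (ℓ := ℓ) hs.continuous δ s
  have h3 : HasDerivAt (uw ℓ h δ φ) _ s := h2.div h1 hN.ne'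
  have h4 : deriv (uw ℓ h δ φ) s * H1.ub (om ℓ h δ) s
      = H1.ub (dS fun z => φ z * om ℓ h δ z) s - uw ℓ h δ φ s * H1.ub (dS (om ℓ h δ)) s := by
    rw [h3.deriv, uw]
    field_simp
  have co : Continuous fun y => om ℓ h δ (s, y) := (H82.cont_om hs.continuous δ).comp (by fun_prop)
  have cf : Continuous fun y => φ (s, y) := hφ.1.continuous.comp (by fun_prop)
  have cS : Continuous fun y => dS φ (s, y) := (H1.cont_dS hφ).comp (by fun_prop)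
  have hne : h s ≠ 0 := hpos.ne'
  have e1 : H1.ub (dS fun z => φ z * om ℓ h δ z) s
      = (∫ y in (-1:ℝ)..1, (dS φ (s, y) * om ℓ h δ (s, y)
        + φ (s, y) * (4 * Real.pi * δ / ℓ * deriv h s * y * om ℓ h δ (s, y)))) / 2 := by
    unfold H1.ub
    congr 2
    ext y
    rw [dS_mul hφ (C1per_om hs hper δ), dS_om hs hper]
  have e2 : H1.ub (dS (om ℓ h δ)) s
      = (∫ y in (-1:ℝ)..1, (4 * Real.pi * δ / ℓ * deriv h s * y * om ℓ h δ (s, y))) / 2 := by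
    unfold H1.ub
    congr 2
    ext y
    rw [dS_om hs hper]
  rw [e1, e2] at h4
  unfold H1.ub at h4
  have i1 : IntervalIntegrable (fun y => dS φ (s, y) * om ℓ h δ (s, y)
        + φ (s, y) * (4 * Real.pi * δ / ℓ * deriv h s * y * om ℓ h δ (s, y))) volume (-1) 1 :=
    ii_of ((cS.mul co).add (cf.mul ((continuous_const.mul continuous_id).mul co)))
  have i2 : IntervalIntegrable (fun y => uw ℓ h δ φ s
      * (4 * Real.pi * δ / ℓ * deriv h s * y * om ℓ h δ (s, y))) volume (-1) 1 :=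
    ii_of (continuous_const.mul ((continuous_const.mul continuous_id).mul co))
  have e3 : ∫ y in (-1:ℝ)..1, (dS φ (s, y) * om ℓ h δ (s, y) + (φ (s, y) - uw ℓ h δ φ s)
        * (4 * Real.pi * δ / ℓ * h s * (deriv h s / h s) * y * om ℓ h δ (s, y)))
      = (∫ y in (-1:ℝ)..1, (dS φ (s, y) * om ℓ h δ (s, y)
        + φ (s, y) * (4 * Real.pi * δ / ℓ * deriv h s * y * om ℓ h δ (s, y))))
        - uw ℓ h δ φ s * ∫ y in (-1:ℝ)..1, (4 * Real.pi * δ / ℓ * deriv h s * y * om ℓ h δ (s, y)) := by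
    rw [← intervalIntegral.integral_const_mul, ← intervalIntegral.integral_sub i1 i2]
    congr 1
    ext y
    have : 4 * Real.pi * δ / ℓ * h s * (deriv h s / h s) = 4 * Real.pi * δ / ℓ * deriv h s := by
      rw [mul_assoc, mul_div_cancel₀ _ hne]
    rw [this]
    ring
  rw [e3]
  linarith

/-- bounds for the weight -/
theorem om_bounds (hℓ : 0 < ℓ) (hδ : 0 ≤ δ) {b s : ℝ} (h0 : 0 ≤ h s) (hb : h s ≤ b) {y : ℝ}
    (hy : y ∈ Icc (-1:ℝ) 1) : Real.exp (-(4 * Real.pi / ℓ * b * δ)) ≤ om ℓ h δ (s, y) ∧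
      om ℓ h δ (s, y) ≤ Real.exp (4 * Real.pi / ℓ * b * δ) := by
  have h1 : |4 * Real.pi * δ * h s * y / ℓ| ≤ 4 * Real.pi / ℓ * b * δ := by
    rw [abs_div, abs_mul, abs_mul, abs_mul, abs_of_pos (by positivity : (0:ℝ) < 4 * Real.pi),
      abs_of_nonneg hδ, abs_of_pos hℓ, abs_of_nonneg h0]
    have a2 : |y| ≤ 1 := abs_le.2 hy
    have a3 : h s * |y| ≤ b * 1 := mul_le_mul hb a2 (abs_nonneg _) (h0.trans hb)
    rw [div_le_iff₀ hℓ]
    have : 4 * Real.pi / ℓ * b * δ * ℓ = 4 * Real.pi * δ * (b * 1) := by field_simp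
    rw [this]
    calc 4 * Real.pi * δ * h s * |y| = 4 * Real.pi * δ * (h s * |y|) := by ring
      _ ≤ _ := by gcongr
  obtain ⟨h2, h3⟩ := abs_le.1 h1
  exact ⟨Real.exp_le_exp.2 h2, Real.exp_le_exp.2 h3⟩

end Pool.Agent.Lib.MP_e46711_an.H21
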