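import Pool.Agent.Lib.MP_e46711_an.H1.Slice

/-!
# MP_e46711_an, module B1c (part 1): weighted averages on a slice
-/

set_option autoImplicit false

open Set Filter Topology MeasureTheory
open scoped ContDiff

namespace Pool.Agent.Lib.MP_e46711_an.H21

open Pool.Agent.Lib.MP_e46711_an

section slice
variable {f w : ℝ → ℝ} {m : ℝ}

theorem ii_of {g : ℝ → ℝ} (hg : Continuous g) : IntervalIntegrable g volume (-1) 1 :=
  hg.intervalIntegrable _ _

/-- weighted variance -/
theorem wvar (hf : Continuous f) (hw : Continuous w)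
    (hm : ∫ y in (-1:ℝ)..1, f y * w y = m * ∫ y in (-1:ℝ)..1, w y) :
    ∫ y in (-1:ℝ)..1, f y ^ 2 * w y
      = m ^ 2 * (∫ y in (-1:ℝ)..1, w y) + ∫ y in (-1:ℝ)..1, (f y - m) ^ 2 * w y := by
  have e : ∀ y, (f y - m) ^ 2 * w y = f y ^ 2 * w y - 2 * m * (f y * w y) + m ^ 2 * w y :=
    fun y => by ring
  simp_rw [e]
  have i1 : IntervalIntegrable (fun y => f y ^ 2 * w y) volume (-1) 1 := ii_of ((hf.pow 2).mul hw)
  have i2 : IntervalIntegrable (fun y => 2 * m * (f y * w y)) volume (-1) 1 :=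
    ii_of (continuous_const.mul (hf.mul hw))
  have i3 : IntervalIntegrable (fun y => m ^ 2 * w y) volume (-1) 1 :=
    ii_of (continuous_const.mul hw)
  rw [intervalIntegral.integral_add (i1.sub i2) i3, intervalIntegral.integral_sub i1 i2,
    intervalIntegral.integral_const_mul, intervalIntegral.integral_const_mul, hm]
  ring

/-- Cauchy-Schwarz with a weight -/
theorem wcs (hf : Continuous f) (hw : Continuous w) (hw0 : ∀ y ∈ Icc (-1:ℝ) 1, 0 ≤ w y)
    (hN : 0 < ∫ y in (-1:ℝ)..1, w y) :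
    (∫ y in (-1:ℝ)..1, f y * w y) ^ 2
      ≤ (∫ y in (-1:ℝ)..1, w y) * ∫ y in (-1:ℝ)..1, f y ^ 2 * w y := by
  have hm : ∫ y in (-1:ℝ)..1, f y * w y
      = ((∫ y in (-1:ℝ)..1, f y * w y) / ∫ y in (-1:ℝ)..1, w y) * ∫ y in (-1:ℝ)..1, w y := by
    field_simp
  have h1 := wvar hf hw hm
  have h2 : 0 ≤ ∫ y in (-1:ℝ)..1,
      (f y - ((∫ y in (-1:ℝ)..1, f y * w y) / ∫ y in (-1:ℝ)..1, w y)) ^ 2 * w y :=
    intervalIntegral.integral_nonneg (by norm_num) fun y hy => mul_nonneg (sq_nonneg _) (hw0 y hy)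
  have h3 : ((∫ y in (-1:ℝ)..1, f y * w y) / ∫ y in (-1:ℝ)..1, w y) ^ 2
      * (∫ y in (-1:ℝ)..1, w y) ≤ ∫ y in (-1:ℝ)..1, f y ^ 2 * w y := by linarith
  have h4 := mul_le_mul_of_nonneg_left h3 hN.le
  have h5 : (∫ y in (-1:ℝ)..1, w y) * (((∫ y in (-1:ℝ)..1, f y * w y) / ∫ y in (-1:ℝ)..1, w y) ^ 2
      * (∫ y in (-1:ℝ)..1, w y)) = (∫ y in (-1:ℝ)..1, f y * w y) ^ 2 := by
    field_simp
  rwa [h5] at h4

/-- Jensen with a weight -/
theorem wjensen {p : ℝ} (hp : 0 < p) (hf : Continuous f) (hw : Continuous w)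
    (hw0 : ∀ y ∈ Icc (-1:ℝ) 1, 0 ≤ w y)
    (hm : ∫ y in (-1:ℝ)..1, f y * w y = m * ∫ y in (-1:ℝ)..1, w y) :
    |m| ^ (p + 1) * (∫ y in (-1:ℝ)..1, w y) ≤ ∫ y in (-1:ℝ)..1, |f y| ^ (p + 1) * w y := by
  have hc : Continuous fun y => |f y| ^ (p + 1) :=
    hf.abs.rpow_const fun _ => Or.inr (by linarith)
  have e : ∀ y, (|m| ^ (p + 1) + (p + 1) * sp (p + 1 - 1) m * (f y - m)) * w y
      = |m| ^ (p + 1) * w y + (p + 1) * sp (p + 1 - 1) m * (f y * w y)
        - (p + 1) * sp (p + 1 - 1) m * m * w y := fun y => by ring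
  have i1 : IntervalIntegrable (fun y => |m| ^ (p + 1) * w y) volume (-1) 1 :=
    ii_of (continuous_const.mul hw)
  have i2 : IntervalIntegrable (fun y => (p + 1) * sp (p + 1 - 1) m * (f y * w y)) volume (-1) 1 :=
    ii_of (continuous_const.mul (hf.mul hw))
  have i3 : IntervalIntegrable (fun y => (p + 1) * sp (p + 1 - 1) m * m * w y) volume (-1) 1 :=
    ii_of (continuous_const.mul hw)
  have h1 : ∫ y in (-1:ℝ)..1, (|m| ^ (p + 1) + (p + 1) * sp (p + 1 - 1) m * (f y - m)) * w y ≤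
      ∫ y in (-1:ℝ)..1, |f y| ^ (p + 1) * w y := by
    apply intervalIntegral.integral_mono_on (by norm_num)
    · exact ii_of ((continuous_const.add (continuous_const.mul (hf.sub continuous_const))).mul hw)
    · exact ii_of (hc.mul hw)
    · intro y hy
      exact mul_le_mul_of_nonneg_right (tangent (by linarith) (f y) m) (hw0 y hy)
  simp_rw [e] at h1
  rw [intervalIntegral.integral_sub (i1.add i2) i3, intervalIntegral.integral_add i1 i2,
    intervalIntegral.integral_const_mul, intervalIntegral.integral_const_mul,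
    intervalIntegral.integral_const_mul, hm] at h1
  linarith

/-- deviation from the weighted average -/
theorem wosc (hf : Continuous f) (hw : Continuous w) (hw0 : ∀ y ∈ Icc (-1:ℝ) 1, 0 ≤ w y)
    (hN : 0 < ∫ y in (-1:ℝ)..1, w y)
    (hm : ∫ y in (-1:ℝ)..1, f y * w y = m * ∫ y in (-1:ℝ)..1, w y) {B : ℝ}
    (hB : ∀ y ∈ Icc (-1:ℝ) 1, ∀ y' ∈ Icc (-1:ℝ) 1, |f y - f y'| ≤ B) {y : ℝ}
    (hy : y ∈ Icc (-1:ℝ) 1) : |f y - m| ≤ B := by
  have h1 : (f y - m) * (∫ y' in (-1:ℝ)..1, w y') = ∫ y' in (-1:ℝ)..1, (f y - f y') * w y' := by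
    have e : ∀ y', (f y - f y') * w y' = f y * w y' - f y' * w y' := fun y' => by ring
    simp_rw [e]
    have i1 : IntervalIntegrable (fun y' => f y * w y') volume (-1) 1 :=
      ii_of (continuous_const.mul hw)
    have i2 : IntervalIntegrable (fun y' => f y' * w y') volume (-1) 1 := ii_of (hf.mul hw)
    rw [intervalIntegral.integral_sub i1 i2, intervalIntegral.integral_const_mul, hm]
    ring
  have h2 : |f y - m| * (∫ y' in (-1:ℝ)..1, w y') ≤ B * ∫ y' in (-1:ℝ)..1, w y' := by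
    rw [← abs_of_pos hN, ← abs_mul, abs_of_pos hN, h1, ← intervalIntegral.integral_const_mul]
    refine (intervalIntegral.abs_integral_le_integral_abs (by norm_num)).trans ?_
    apply intervalIntegral.integral_mono_on (by norm_num)
    · exact ii_of ((continuous_const.sub hf).mul hw).abs
    · exact ii_of (continuous_const.mul hw)
    · intro y' hy'
      rw [abs_mul, abs_of_nonneg (hw0 y' hy')]
      exact mul_le_mul_of_nonneg_right (hB y hy y' hy') (hw0 y' hy')
  exact le_of_mul_le_mul_right h2 hN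

end slice

/-- the derivative of the weighted average -/
theorem wder {f fs fy w : ℝ → ℝ} (hf : Continuous f) (hfs : Continuous fs) (hfy : Continuous fy)
    (hw : Continuous w) {x : ℝ} (hx : Real.exp x ≤ 2)
    (hwl : ∀ y ∈ Icc (-1:ℝ) 1, Real.exp (-x) ≤ w y) (hwu : ∀ y ∈ Icc (-1:ℝ) 1, w y ≤ Real.exp x)
    {m : ℝ} (hm : ∫ y in (-1:ℝ)..1, f y * w y = m * ∫ y in (-1:ℝ)..1, w y)
    (hB : ∀ y ∈ Icc (-1:ℝ) 1, ∀ y' ∈ Icc (-1:ℝ) 1, |f y - f y'| ≤ ∫ y in (-1:ℝ)..1, |fy y|)
    {a c K D η : ℝ} (ha : |a| ≤ K) (hc : |c| ≤ 1) (hη : 0 < η)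
    (hD : D * (∫ y in (-1:ℝ)..1, w y)
      = ∫ y in (-1:ℝ)..1, (fs y * w y + (f y - m) * (c * a * y * w y))) :
    D ^ 2 ≤ (1 + η) * Real.exp (2 * x) * ((∫ y in (-1:ℝ)..1, (fs y - a * y * fy y) ^ 2) / 2)
      + (1 + 1 / η) * (72 * K ^ 2) * ∫ y in (-1:ℝ)..1, fy y ^ 2 := by
  have hK : 0 ≤ K := (abs_nonneg _).trans ha
  have hw0 : ∀ y ∈ Icc (-1:ℝ) 1, 0 ≤ w y := fun y hy => (Real.exp_pos _).le.trans (hwl y hy)
  set N := ∫ y in (-1:ℝ)..1, w y with hN
  have hNl : 2 * Real.exp (-x) ≤ N := by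
    have h1 : ∫ _y in (-1:ℝ)..1, Real.exp (-x) ≤ N := by
      apply intervalIntegral.integral_mono_on (by norm_num)
      · exact ii_of continuous_const
      · exact ii_of hw
      · exact hwl
    rw [intervalIntegral.integral_const, smul_eq_mul] at h1
    linarith
  have hex : (1:ℝ) / 2 ≤ Real.exp (-x) := by
    rw [Real.exp_neg, one_div]
    exact inv_anti₀ (Real.exp_pos _) hx
  have hN1 : 1 ≤ N := by linarith
  have hN0 : 0 < N := by linarith
  set B := ∫ y in (-1:ℝ)..1, |fy y| with hBdef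
  set q := ∫ y in (-1:ℝ)..1, fy y ^ 2 with hq
  have hB0 : 0 ≤ B := intervalIntegral.integral_nonneg (by norm_num) fun y _ => abs_nonneg _
  have hBq : B ^ 2 ≤ 2 * q := by
    have := H1.ii_sq hfy.abs
    simpa only [sq_abs] using this
  have hq0 : 0 ≤ q := intervalIntegral.integral_nonneg (by norm_num) fun y _ => sq_nonneg _
  -- the two parts
  set P := ∫ y in (-1:ℝ)..1, (fs y - a * y * fy y) * w y with hP
  set S := ∫ y in (-1:ℝ)..1, (a * y * fy y * w y + (f y - m) * (c * a * y * w y)) with hS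
  have cP : Continuous fun y => fs y - a * y * fy y :=
    hfs.sub ((continuous_const.mul continuous_id).mul hfy)
  have cS : Continuous fun y => a * y * fy y * w y + (f y - m) * (c * a * y * w y) :=
    ((((continuous_const.mul continuous_id).mul hfy).mul hw)).add
      ((hf.sub continuous_const).mul ((continuous_const.mul continuous_id).mul hw))
  have hPS : D * N = P + S := by
    have i1 : IntervalIntegrable (fun y => (fs y - a * y * fy y) * w y) volume (-1) 1 :=
      ii_of (cP.mul hw)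
    rw [hD, hP, hS, ← intervalIntegral.integral_add i1 (ii_of cS)]
    congr 1
    ext y
    ring
  set g := ∫ y in (-1:ℝ)..1, (fs y - a * y * fy y) ^ 2 with hg
  have hg0 : 0 ≤ g := intervalIntegral.integral_nonneg (by norm_num) fun y _ => sq_nonneg _
  have hP2 : P ^ 2 ≤ N * (Real.exp x * g) := by
    refine (wcs cP hw hw0 hN0).trans (mul_le_mul_of_nonneg_left ?_ hN0.le)
    rw [hg, ← intervalIntegral.integral_const_mul]
    apply intervalIntegral.integral_mono_on (by norm_num)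
    · exact ii_of ((cP.pow 2).mul hw)
    · exact ii_of (continuous_const.mul (cP.pow 2))
    · intro y hy
      rw [mul_comm]
      exact mul_le_mul_of_nonneg_right (hwu y hy) (sq_nonneg _)
  have hS1 : |S| ≤ 6 * K * B := by
    have h1 : |S| ≤ ∫ y in (-1:ℝ)..1, (2 * K * |fy y| + 2 * K * B) := by
      refine (intervalIntegral.abs_integral_le_integral_abs (by norm_num)).trans ?_
      apply intervalIntegral.integral_mono_on (by norm_num)
      · exact ii_of cS.abs
      · exact ii_of ((continuous_const.mul hfy.abs).add continuous_const)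
      · intro y hy
        have hy1 : |y| ≤ 1 := abs_le.2 hy
        have hw2 : w y ≤ 2 := (hwu y hy).trans hx
        have hwy := hw0 y hy
        have hd := wosc hf hw hw0 hN0 hm hB hy
        have e1 : |a * y * fy y * w y| ≤ 2 * K * |fy y| := by
          rw [abs_mul, abs_mul, abs_mul, abs_of_nonneg hwy]
          have h1 : |a| * |y| ≤ K * 1 := mul_le_mul ha hy1 (abs_nonneg _) hK
          calc |a| * |y| * |fy y| * w y ≤ (K * 1) * |fy y| * 2 := by
                apply mul_le_mul (mul_le_mul_of_nonneg_right h1 (abs_nonneg _)) hw2 hwy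
                positivity
            _ = 2 * K * |fy y| := by ring
        have e2 : |(f y - m) * (c * a * y * w y)| ≤ 2 * K * B := by
          rw [abs_mul, abs_mul, abs_mul, abs_mul, abs_of_nonneg hwy]
          have h1 : |c| * |a| ≤ 1 * K := mul_le_mul hc ha (abs_nonneg _) zero_le_one
          have h2 : |c| * |a| * |y| ≤ 1 * K * 1 := mul_le_mul h1 hy1 (abs_nonneg _) (by positivity)
          have h3 : |c| * |a| * |y| * w y ≤ 1 * K * 1 * 2 := mul_le_mul h2 hw2 hwy (by positivity)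
          calc |f y - m| * (|c| * |a| * |y| * w y) ≤ B * (1 * K * 1 * 2) :=
                mul_le_mul hd h3 (by positivity) hB0
            _ = 2 * K * B := by ring
        exact (abs_add_le _ _).trans (add_le_add e1 e2)
    have h2 : ∫ y in (-1:ℝ)..1, (2 * K * |fy y| + 2 * K * B) = 6 * K * B := by
      have i1 : IntervalIntegrable (fun y => 2 * K * |fy y|) volume (-1) 1 :=
        ii_of (continuous_const.mul hfy.abs)
      rw [intervalIntegral.integral_add i1
        (ii_of continuous_const), intervalIntegral.integral_const_mul,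
        intervalIntegral.integral_const, smul_eq_mul, ← hBdef]
      ring
    linarith
  have hS2 : S ^ 2 ≤ 72 * K ^ 2 * q := by
    have h1 : S ^ 2 ≤ (6 * K * B) ^ 2 := by
      rw [← sq_abs S]
      exact pow_le_pow_left₀ (abs_nonneg _) hS1 2
    have h2 : (6 * K * B) ^ 2 = 36 * K ^ 2 * B ^ 2 := by ring
    have h3 : 36 * K ^ 2 * B ^ 2 ≤ 36 * K ^ 2 * (2 * q) :=
      mul_le_mul_of_nonneg_left hBq (by positivity)
    linarith
  have hsum : (P + S) ^ 2 ≤ (1 + η) * P ^ 2 + (1 + 1 / η) * S ^ 2 := by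
    have h1 : (1 + η) * P ^ 2 + (1 + 1 / η) * S ^ 2 - (P + S) ^ 2 = (η * P - S) ^ 2 / η := by
      field_simp
      ring
    have h2 : 0 ≤ (η * P - S) ^ 2 / η := by positivity
    linarith
  have hk1 : D ^ 2 * N ^ 2 ≤ (1 + η) * (N * (Real.exp x * g)) + (1 + 1 / η) * (72 * K ^ 2 * q) := by
    rw [← mul_pow, hPS]
    have h1 := mul_le_mul_of_nonneg_left hP2 (by positivity : 0 ≤ 1 + η)
    have h2 := mul_le_mul_of_nonneg_left hS2 (by positivity : 0 ≤ 1 + 1 / η)
    linarith
  have hex2 : Real.exp (2 * x) = Real.exp x * Real.exp x := by rw [← Real.exp_add]; ring_nf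
  have hNe : 2 ≤ N * Real.exp x := by
    have h1 := mul_le_mul_of_nonneg_right hNl (Real.exp_pos x).le
    have h2 : 2 * Real.exp (-x) * Real.exp x = 2 := by
      rw [mul_assoc, ← Real.exp_add]; simp
    linarith
  -- divide by N^2
  have hN2 : 1 ≤ N ^ 2 := by nlinarith
  have t1 : N * (Real.exp x * g) ≤ N ^ 2 * (Real.exp (2 * x) * (g / 2)) := by
    rw [hex2]
    have h1 : N * (Real.exp x * g) * 2 ≤ N * (Real.exp x * g) * (N * Real.exp x) :=
      mul_le_mul_of_nonneg_left hNe (by positivity)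
    nlinarith
  have t2 : 72 * K ^ 2 * q ≤ N ^ 2 * (72 * K ^ 2 * q) := by
    have : 0 ≤ 72 * K ^ 2 * q := by positivity
    nlinarith
  have hk2 : N ^ 2 * D ^ 2 ≤ N ^ 2 * ((1 + η) * Real.exp (2 * x) * (g / 2)
      + (1 + 1 / η) * (72 * K ^ 2) * q) := by
    have h1 := mul_le_mul_of_nonneg_left t1 (by positivity : 0 ≤ 1 + η)
    have h2 := mul_le_mul_of_nonneg_left t2 (by positivity : 0 ≤ 1 + 1 / η)
    nlinarith
  exact le_of_mul_le_mul_left hk2 (by positivity)

end Pool.Agent.Lib.MP_e46711_an.H21
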